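import Pool.Agent.Helper750.UC.Base

set_option autoImplicit false

namespace Pool.Agent.Helper750.UC.J_RS_comp

open Pool.Agent.Helper750.UC

open FirstOrder FirstOrder.Language Pool.Agent.Helper158.FCD

/-- the decision predicate with the label as a parameter -/
def RSQ (q : List Bool × ℕ × ℕ × ℕ) : Prop :=
  (q.2.1 % 2 = 0 ∧ (q.2.2.1 % 2 = 0 ∧ q.2.2.2 % 2 = 0 ∧ ¬ q.2.2.1 = q.2.2.2 ∧
      q.2.2.1 / 4 = q.2.1 / 2 ∧ q.2.2.2 / 4 = q.2.1 / 2)) ∨
  (¬ q.2.1 % 2 = 0 ∧ (q.2.2.1 % 2 = 1 ∧ q.2.2.2 % 2 = 0 ∧ q.1.length = q.2.1 / 2 ∧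
    q.2.2.2 / 4 < q.2.1 / 2 ∧
    q.1.getD (q.2.2.2 / 4) false = decide ((q.2.2.2 / 2) % 2 = 1)))

theorem RSQ_prim : PrimrecPred RSQ := by
  have hi : Primrec fun q : List Bool × ℕ × ℕ × ℕ => q.2.1 := Primrec.fst.comp Primrec.snd
  have hn : Primrec fun q : List Bool × ℕ × ℕ × ℕ => q.2.2.1 :=
    Primrec.fst.comp (Primrec.snd.comp Primrec.snd)
  have hm : Primrec fun q : List Bool × ℕ × ℕ × ℕ => q.2.2.2 :=
    Primrec.snd.comp (Primrec.snd.comp Primrec.snd)
  have hmod : ∀ {f : List Bool × ℕ × ℕ × ℕ → ℕ} (_ : Primrec f) (k : ℕ),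
      Primrec fun q => f q % k := fun hf k => Primrec.nat_mod.comp hf (Primrec.const k)
  have hdiv : ∀ {f : List Bool × ℕ × ℕ × ℕ → ℕ} (_ : Primrec f) (k : ℕ),
      Primrec fun q => f q / k := fun hf k => Primrec.nat_div.comp hf (Primrec.const k)
  have heq : ∀ {f g : List Bool × ℕ × ℕ × ℕ → ℕ} (_ : Primrec f) (_ : Primrec g),
      PrimrecPred fun q => f q = g q := fun hf hg => Primrec.eq.comp hf hg
  have hlen : Primrec fun q : List Bool × ℕ × ℕ × ℕ => q.1.length :=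
    Primrec.list_length.comp Primrec.fst
  have hget : Primrec fun q : List Bool × ℕ × ℕ × ℕ => q.1.getD (q.2.2.2 / 4) false :=
    (Primrec.list_getD false).comp Primrec.fst (hdiv hm 4)
  have hdec : Primrec fun q : List Bool × ℕ × ℕ × ℕ => decide ((q.2.2.2 / 2) % 2 = 1) :=
    (heq (hmod (hdiv hm 2) 2) (Primrec.const 1)).decide
  refine PrimrecPred.or ?_ ?_
  · refine (heq (hmod hi 2) (Primrec.const 0)).and ?_
    refine (heq (hmod hn 2) (Primrec.const 0)).and ?_
    refine (heq (hmod hm 2) (Primrec.const 0)).and ?_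
    refine (heq hn hm).not.and ?_
    exact (heq (hdiv hn 4) (hdiv hi 2)).and (heq (hdiv hm 4) (hdiv hi 2))
  · refine (heq (hmod hi 2) (Primrec.const 0)).not.and ?_
    refine (heq (hmod hn 2) (Primrec.const 1)).and ?_
    refine (heq (hmod hm 2) (Primrec.const 0)).and ?_
    refine (heq hlen (hdiv hi 2)).and ?_
    refine (Primrec.nat_lt.comp (hdiv hm 4) (hdiv hi 2)).and ?_
    exact Primrec.eq.comp hget hdec

theorem RSQ_iff (lbl : ℕ → List Bool) (i n m : ℕ) :
    RS lbl i n m ↔ RSQ (lbl (n / 2), i, n, m) := by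
  unfold RS RSQ
  by_cases hi : i % 2 = 0
  · simp only [hi, if_true, true_and, not_true, false_and, or_false]
  · simp only [hi, if_false, false_and, false_or, not_false_iff, true_and]

theorem RS_comp (lbl : ℕ → List Bool) (h : Computable lbl) : IsComp (RS lbl) := by
  have h1 : ComputablePred RSQ := by
    obtain ⟨hd, hc⟩ := RSQ_prim
    exact ⟨hd, hc.to_comp⟩
  obtain ⟨f, hf, hfe⟩ := ComputablePred.computable_iff.1 h1
  refine ComputablePred.computable_iff.2 ⟨fun p => f (lbl (p.2.1 / 2), p), ?_, ?_⟩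
  · refine hf.comp (Computable.pair (h.comp ?_) Computable.id)
    exact (Primrec.nat_div.comp (Primrec.fst.comp Primrec.snd) (Primrec.const 2)).to_comp
  · funext p
    obtain ⟨i, n, m⟩ := p
    have h2 := congrFun hfe (lbl (n / 2), i, n, m)
    show RS lbl i n m = _
    rw [← h2]
    exact propext (RSQ_iff lbl i n m)

end Pool.Agent.Helper750.UC.J_RS_comp
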