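import Pool.Agent.Helper750.UC.Base

set_option autoImplicit false

namespace Pool.Agent.Helper750.UC.J_RS_finite

open Pool.Agent.Helper750.UC

open FirstOrder FirstOrder.Language Pool.Agent.Helper158.FCD

theorem RS_finite (lbl : ℕ → List Bool) (h : Function.Injective lbl) (i : ℕ) :
    {p : ℕ × ℕ | RS lbl i p.1 p.2}.Finite := by
  by_cases hi : i % 2 = 0
  · apply ((Set.finite_Iio (4 * (i / 2) + 4)).prod (Set.finite_Iio (4 * (i / 2) + 4))).subset
    rintro ⟨n, m⟩ hp
    have hp' : RS lbl i n m := hp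
    unfold RS at hp'
    rw [if_pos hi] at hp'
    obtain ⟨-, -, -, h1, h2⟩ := hp'
    refine Set.mk_mem_prod ?_ ?_
    · rw [Set.mem_Iio]; omega
    · rw [Set.mem_Iio]; omega
  · have hfin : {k : ℕ | (lbl k).length = i / 2}.Finite := by
      have h1 : {l : List Bool | l.length = i / 2}.Finite := List.finite_length_eq Bool (i / 2)
      exact h1.preimage (h.injOn)
    have hfin2 : {n : ℕ | (lbl (n / 2)).length = i / 2}.Finite := by
      obtain ⟨b, hb⟩ := hfin.bddAbove
      apply (Set.finite_Iio (2 * b + 2)).subset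
      intro n hn
      have h2 : n / 2 ≤ b := hb hn
      rw [Set.mem_Iio]; omega
    apply (hfin2.prod (Set.finite_Iio (4 * (i / 2)))).subset
    rintro ⟨n, m⟩ hp
    have hp' : RS lbl i n m := hp
    unfold RS at hp'
    rw [if_neg hi] at hp'
    obtain ⟨-, -, h1, h2, -⟩ := hp'
    refine Set.mk_mem_prod h1 ?_
    rw [Set.mem_Iio]; omega

end Pool.Agent.Helper750.UC.J_RS_finite
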