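import Pool.Agent.Helper750.UC.Base

set_option autoImplicit false

namespace Pool.Agent.Helper750.UC.J_RS_iso

open Pool.Agent.Helper750.UC

open FirstOrder FirstOrder.Language Pool.Agent.Helper158.FCD

/-- bitwise exclusive or of a string with an infinite sequence -/
def rsT (z : ℕ → Bool) (x : List Bool) : List Bool :=
  (List.range x.length).map fun i => xor (x.getD i false) (z i)

theorem rsT_length (z : ℕ → Bool) (x : List Bool) : (rsT z x).length = x.length := by
  simp [rsT]

theorem rsT_eq (z : ℕ → Bool) (x : List Bool) : sx x (pre z x.length) = rsT z x := by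
  apply List.ext_getElem
  · simp [sx, pre, rsT]
  · intro i h1 h2
    rw [rsT_length] at h2
    simp [sx, pre, rsT, List.getElem?_eq_getElem h2]

theorem rsT_getD (z : ℕ → Bool) (x : List Bool) (i : ℕ) (hi : i < x.length) :
    (rsT z x).getD i false = xor (x.getD i false) (z i) := by
  have h2 : i < (rsT z x).length := by rw [rsT_length]; exact hi
  rw [List.getD_eq_getElem _ _ h2]
  simp [rsT]

theorem rsT_rsT (z : ℕ → Bool) (x : List Bool) : rsT z (rsT z x) = x := by
  apply List.ext_getElem
  · rw [rsT_length, rsT_length]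
  · intro i h1 h2
    rw [← List.getD_eq_getElem _ false h1, ← List.getD_eq_getElem _ false h2,
      rsT_getD z (rsT z x) i (by rw [rsT_length]; exact h2), rsT_getD z x i h2]
    cases x.getD i false <;> cases z i <;> rfl

theorem rsT_comp {z : ℕ → Bool} (hz : Computable z) : Computable (rsT z) := by
  have h1 : Computable fun x : List Bool => (Nat.rec ([] : List Bool)
      (fun y IH => IH ++ [xor (x.getD y false) (z y)]) x.length : List Bool) := by
    refine Computable.nat_rec (f := fun x : List Bool => x.length)
      (g := fun _ => ([] : List Bool))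
      (h := fun (x : List Bool) (p : ℕ × List Bool) => p.2 ++ [xor (x.getD p.1 false) (z p.1)])
      (Primrec.list_length.to_comp) (Computable.const _) ?_
    have hx : Computable fun q : List Bool × (ℕ × List Bool) => q.1.getD q.2.1 false :=
      ((Primrec.list_getD false).comp Primrec.fst (Primrec.fst.comp Primrec.snd)).to_comp
    have hzz : Computable fun q : List Bool × (ℕ × List Bool) => z q.2.1 :=
      hz.comp (Computable.fst.comp Computable.snd)
    have hb : Computable fun q : List Bool × (ℕ × List Bool) =>
        xor (q.1.getD q.2.1 false) (z q.2.1) :=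
      (Primrec.dom_bool₂ xor).to_comp.comp hx hzz
    exact (Primrec.list_concat (α := Bool)).to_comp.comp (Computable.snd.comp Computable.snd) hb
  refine h1.of_eq fun x => ?_
  have h2 : ∀ n, (Nat.rec ([] : List Bool)
      (fun y IH => IH ++ [xor (x.getD y false) (z y)]) n : List Bool) =
      (List.range n).map fun i => xor (x.getD i false) (z i) := by
    intro n
    induction n with
    | zero => rfl
    | succ n ih =>
      rw [List.range_succ, List.map_append, ← ih]
      rfl
  exact h2 x.length

theorem RS_iso (lbl lbl' : ℕ → List Bool) (h : Function.Injective lbl)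
    (h' : Function.Injective lbl') (z : ℕ → Bool)
    (hz : ∀ x, (∃ k, lbl k = x) ↔ ∃ k, lbl' k = sx x (pre z x.length)) :
    ∃ f : ℕ → ℕ, (Computable lbl → Computable lbl' → Computable z → Computable f) ∧
      IsIsoN (RS lbl) (RS lbl') f := by
  have hg : ∀ k, ∃ k', lbl' k' = rsT z (lbl k) := by
    intro k
    obtain ⟨k', hk'⟩ := (hz (lbl k)).1 ⟨k, rfl⟩
    exact ⟨k', by rw [hk', rsT_eq]⟩
  choose g hg using hg
  have hgc : Computable lbl → Computable lbl' → Computable z → Computable g := by
    intro c1 c2 c3
    have h1 : Partrec fun k : ℕ => Nat.rfind fun k' =>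
        (Part.some (decide (lbl' k' = rsT z (lbl k))) : Part Bool) := by
      apply Partrec.rfind
      have h2 : Computable fun (p : ℕ × ℕ) => decide (lbl' p.2 = rsT z (lbl p.1)) :=
        (Primrec.beq (α := List Bool)).to_comp.comp (c2.comp Computable.snd)
          ((rsT_comp c3).comp (c1.comp Computable.fst))
      exact Computable.partrec h2
    refine Partrec.of_eq_tot h1 fun k => ?_
    rw [Nat.mem_rfind]
    constructor
    · rw [hg k]
      simp
    · intro m hm
      have h3 : lbl' m ≠ rsT z (lbl k) := by
        rw [← hg k]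
        intro e
        exact hm.ne (h' e)
      have h4 : decide (lbl' m = rsT z (lbl k)) = false := decide_eq_false h3
      rw [h4]
      exact Part.mem_some _
  have hginj : Function.Injective g := by
    intro a b hab
    apply h
    have h1 : rsT z (lbl a) = rsT z (lbl b) := by rw [← hg a, ← hg b, hab]
    rw [← rsT_rsT z (lbl a), h1, rsT_rsT]
  have hgsurj : Function.Surjective g := by
    intro k'
    obtain ⟨k, hk⟩ := (hz (rsT z (lbl' k'))).2 ⟨k', by rw [rsT_eq, rsT_rsT]⟩
    refine ⟨k, h' ?_⟩
    rw [hg k, hk, rsT_rsT]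
  obtain ⟨f, hf⟩ : ∃ f : ℕ → ℕ, f = fun n => bif n.bodd then 2 * g (n / 2) + 1
      else 4 * (n / 4) + 2 * (bif z (n / 4) then 1 - (n / 2) % 2 else (n / 2) % 2) := ⟨_, rfl⟩
  have hfo : ∀ n, n % 2 = 1 → f n = 2 * g (n / 2) + 1 := by
    intro n hn
    have h1 : n.bodd = true := by
      have := Nat.mod_two_of_bodd n
      rw [hn] at this
      cases hb : n.bodd
      · rw [hb] at this; simp at this
      · rfl
    rw [hf]; simp only [h1, cond_true]
  have hfe : ∀ n, n % 2 = 0 → f n =
      4 * (n / 4) + 2 * (bif z (n / 4) then 1 - (n / 2) % 2 else (n / 2) % 2) := by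
    intro n hn
    have h1 : n.bodd = false := by
      have := Nat.mod_two_of_bodd n
      rw [hn] at this
      cases hb : n.bodd
      · rfl
      · rw [hb] at this; simp at this
    rw [hf]; simp only [h1, cond_false]
  have hfb : ∀ n, n % 2 = 0 →
      (bif z (n / 4) then 1 - (n / 2) % 2 else (n / 2) % 2) ≤ 1 := by
    intro n _
    cases z (n / 4)
    · simp only [cond_false]; omega
    · simp only [cond_true]; omega
  have hfe4 : ∀ n, n % 2 = 0 → f n / 4 = n / 4 := by
    intro n hn
    have h1 := hfb n hn
    rw [hfe n hn]; omega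
  have hfe2 : ∀ n, n % 2 = 0 → (f n / 2) % 2 =
      (bif z (n / 4) then 1 - (n / 2) % 2 else (n / 2) % 2) := by
    intro n hn
    have h1 := hfb n hn
    rw [hfe n hn]; omega
  have hfp : ∀ n, f n % 2 = n % 2 := by
    intro n
    rcases Nat.mod_two_eq_zero_or_one n with hn | hn
    · rw [hfe n hn, hn]; omega
    · rw [hfo n hn, hn]; omega
  have hinj : Function.Injective f := by
    intro a b hab
    have hp : a % 2 = b % 2 := by rw [← hfp a, ← hfp b, hab]
    rcases Nat.mod_two_eq_zero_or_one a with ha | ha
    · have hb : b % 2 = 0 := by rw [← hp, ha]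
      have h4 : a / 4 = b / 4 := by rw [← hfe4 a ha, ← hfe4 b hb, hab]
      have h2 : (f a / 2) % 2 = (f b / 2) % 2 := by rw [hab]
      rw [hfe2 a ha, hfe2 b hb, h4] at h2
      cases hzz : z (b / 4)
      · rw [hzz] at h2; simp only [cond_false] at h2; omega
      · rw [hzz] at h2; simp only [cond_true] at h2; omega
    · have hb : b % 2 = 1 := by rw [← hp, ha]
      rw [hfo a ha, hfo b hb] at hab
      have h1 : g (a / 2) = g (b / 2) := by omega
      have h2 := hginj h1
      omega
  have hff : ∀ n, n % 2 = 0 → f (f n) = n := by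
    intro n hn
    have h1 : f n % 2 = 0 := by rw [hfp, hn]
    rw [hfe (f n) h1, hfe4 n hn, hfe2 n hn]
    cases hzz : z (n / 4)
    · simp only [cond_false]; omega
    · simp only [cond_true]; omega
  have hsurj : Function.Surjective f := by
    intro y
    rcases Nat.mod_two_eq_zero_or_one y with hy | hy
    · exact ⟨f y, hff y hy⟩
    · obtain ⟨k, hk⟩ := hgsurj (y / 2)
      refine ⟨2 * k + 1, ?_⟩
      rw [hfo _ (by omega)]
      have : (2 * k + 1) / 2 = k := by omega
      rw [this, hk]; omega
  refine ⟨f, ?_, ⟨hinj, hsurj⟩, ?_⟩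
  · intro c1 c2 c3
    have cg := hgc c1 c2 c3
    have d2 : Computable fun n : ℕ => n / 2 :=
      (Primrec.nat_div.comp Primrec.id (Primrec.const 2)).to_comp
    have d4 : Computable fun n : ℕ => n / 4 :=
      (Primrec.nat_div.comp Primrec.id (Primrec.const 4)).to_comp
    have e1 : Computable fun n : ℕ => 2 * g (n / 2) + 1 :=
      Computable.succ.comp ((Primrec.nat_mul.comp (Primrec.const 2) Primrec.id).to_comp.comp
        (cg.comp d2))
    have m2 : Primrec fun n : ℕ => (n / 2) % 2 :=
      Primrec.nat_mod.comp (Primrec.nat_div.comp Primrec.id (Primrec.const 2)) (Primrec.const 2)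
    have m3 : Primrec fun n : ℕ => 1 - (n / 2) % 2 := Primrec.nat_sub.comp (Primrec.const 1) m2
    have e2 : Computable fun n : ℕ => (bif z (n / 4) then 1 - (n / 2) % 2 else (n / 2) % 2) :=
      Computable.cond (c3.comp d4) m3.to_comp m2.to_comp
    have e3 : Computable fun n : ℕ =>
        4 * (n / 4) + 2 * (bif z (n / 4) then 1 - (n / 2) % 2 else (n / 2) % 2) :=
      Primrec.nat_add.to_comp.comp
        ((Primrec.nat_mul.comp (Primrec.const 4) Primrec.id).to_comp.comp d4)
        ((Primrec.nat_mul.comp (Primrec.const 2) Primrec.id).to_comp.comp e2)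
    rw [hf]
    exact Computable.cond Primrec.nat_bodd.to_comp e1 e3
  · intro i x y
    unfold RS
    by_cases hi : i % 2 = 0
    · rw [if_pos hi, if_pos hi, hfp x, hfp y]
      constructor
      · rintro ⟨h1, h2, h3, h4, h5⟩
        exact ⟨h1, h2, fun e => h3 (hinj e), by rw [hfe4 x h1]; exact h4,
          by rw [hfe4 y h2]; exact h5⟩
      · rintro ⟨h1, h2, h3, h4, h5⟩
        rw [hfe4 x h1] at h4
        rw [hfe4 y h2] at h5
        exact ⟨h1, h2, fun e => h3 (by rw [e]), h4, h5⟩
    · rw [if_neg hi, if_neg hi, hfp x, hfp y]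
      apply and_congr_right
      intro hx
      apply and_congr_right
      intro hy
      have h1 : f x / 2 = g (x / 2) := by rw [hfo x hx]; omega
      rw [h1, hg, rsT_length, hfe4 y hy]
      apply and_congr_right
      intro hl
      apply and_congr_right
      intro hly
      rw [rsT_getD z _ _ (by rw [hl]; exact hly), hfe2 y hy]
      have h2 : (y / 2) % 2 = 0 ∨ (y / 2) % 2 = 1 := Nat.mod_two_eq_zero_or_one _
      rcases h2 with h2 | h2 <;> rw [h2] <;>
        cases (lbl (x / 2)).getD (y / 4) false <;> cases z (y / 4) <;> decide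

end Pool.Agent.Helper750.UC.J_RS_iso
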