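import Pool.Agent.Helper750.UC.Base

set_option autoImplicit false

namespace Pool.Agent.Helper750.UC.J_RS_shift

open Pool.Agent.Helper750.UC

open FirstOrder FirstOrder.Language Pool.Agent.Helper158.FCD

/-- the element `u_c^e` -/
def shU (c : ℕ) (e : Bool) : ℕ := 4 * c + 2 * e.toNat

theorem shU_mod (c : ℕ) (e : Bool) : shU c e % 2 = 0 := by
  unfold shU; omega

theorem shU_div (c : ℕ) (e : Bool) : shU c e / 4 = c := by
  unfold shU
  have : e.toNat ≤ 1 := Bool.toNat_le e
  omega

theorem shU_bit (c : ℕ) (e : Bool) : decide ((shU c e / 2) % 2 = 1) = e := by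
  unfold shU
  cases e
  · simp only [Bool.toNat_false, mul_zero, add_zero, decide_eq_false_iff_not]
    omega
  · simp only [Bool.toNat_true, mul_one, decide_eq_true_eq]
    omega

theorem shU_iff (lbl : ℕ → List Bool) (k l c : ℕ) (e : Bool) :
    RS lbl (2 * l + 1) (2 * k + 1) (shU c e) ↔
      (lbl k).length = l ∧ c < l ∧ (lbl k).getD c false = e := by
  have h1 : (2 * l + 1) % 2 ≠ 0 := by omega
  have h2 : (2 * k + 1) % 2 = 1 := by omega
  have h3 : (2 * k + 1) / 2 = k := by omega
  have h4 : (2 * l + 1) / 2 = l := by omega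
  unfold RS
  rw [if_neg h1, h3, h4, shU_bit, shU_div]
  simp only [h2, shU_mod, true_and]

theorem shU_g (lbl lbl' : ℕ → List Bool) (g : ℕ → ℕ)
    (hg : IsIsoN (RS lbl) (RS lbl') g) (c : ℕ) (e : Bool) :
    g (shU c e) = shU c (xor e (decide ((g (4 * c) / 2) % 2 = 1))) := by
  have h1 : RS lbl (2 * c) (4 * c) (4 * c + 2) := by
    unfold RS
    rw [if_pos (by omega)]
    refine ⟨by omega, by omega, by omega, by omega, by omega⟩
  have h2 := (hg.2 _ _ _).mp h1
  unfold RS at h2
  rw [if_pos (by omega)] at h2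
  obtain ⟨a1, a2, a3, a4, a5⟩ := h2
  have h3 : 2 * c / 2 = c := by omega
  rw [h3] at a4 a5
  by_cases hc : (g (4 * c) / 2) % 2 = 1
  · rw [decide_eq_true hc]
    cases e
    · show g (4 * c + 2 * 0) = 4 * c + 2 * 1
      rw [mul_zero, add_zero]
      omega
    · show g (4 * c + 2 * 1) = 4 * c + 2 * 0
      rw [mul_one]
      omega
  · rw [decide_eq_false hc]
    cases e
    · show g (4 * c + 2 * 0) = 4 * c + 2 * 0
      rw [mul_zero, add_zero]
      omega
    · show g (4 * c + 2 * 1) = 4 * c + 2 * 1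
      rw [mul_one]
      omega

theorem RS_shift (lbl lbl' : ℕ → List Bool) (hne : ∀ k, lbl k ≠ []) (g : ℕ → ℕ)
    (hg : IsIsoN (RS lbl) (RS lbl') g) (k : ℕ) :
    ∃ k', lbl' k' = sx (lbl k) (pre (fun c => decide ((g (4 * c) / 2) % 2 = 1)) (lbl k).length) := by
  set l := (lbl k).length with hl
  have hl0 : 0 < l := List.length_pos_iff.mpr (hne k)
  -- the general transfer
  have key : ∀ c, c < l → RS lbl' (2 * l + 1) (g (2 * k + 1))
      (shU c (xor ((lbl k).getD c false) (decide ((g (4 * c) / 2) % 2 = 1)))) := by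
    intro c hc
    rw [← shU_g lbl lbl' g hg c]
    exact (hg.2 _ _ _).mp ((shU_iff lbl k l c _).mpr ⟨hl.symm, hc, rfl⟩)
  have hodd : g (2 * k + 1) % 2 = 1 := by
    have h := key 0 hl0
    unfold RS at h
    rw [if_neg (by omega)] at h
    exact h.1
  have hk' : g (2 * k + 1) = 2 * (g (2 * k + 1) / 2) + 1 := by omega
  refine ⟨g (2 * k + 1) / 2, ?_⟩
  set k' := g (2 * k + 1) / 2 with hk'def
  have key2 : ∀ c, c < l → (lbl' k').length = l ∧ c < l ∧ (lbl' k').getD c false
      = xor ((lbl k).getD c false) (decide ((g (4 * c) / 2) % 2 = 1)) := by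
    intro c hc
    have h := key c hc
    rw [hk'] at h
    exact (shU_iff lbl' k' l c _).mp h
  have hlen : (lbl' k').length = l := (key2 0 hl0).1
  refine List.ext_getElem ?_ ?_
  · simp [sx, pre, hlen, hl]
  · intro c hc1 hc2
    have hc : c < l := hlen ▸ hc1
    have h3 := (key2 c hc).2.2
    rw [List.getD_eq_getElem _ _ hc1, List.getD_eq_getElem _ _ (hl ▸ hc)] at h3
    rw [h3]
    simp [sx, pre]

end Pool.Agent.Helper750.UC.J_RS_shift
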