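import Pool.Agent.Helper750.UC.Base

set_option autoImplicit false

namespace Pool.Agent.Helper750.UC.J_equiv_of

open Pool.Agent.Helper750.UC

open FirstOrder FirstOrder.Language Pool.Agent.Helper158.FCD

theorem equiv_of (A : ℕ → ℕ → ℕ → Prop) (M N : Type) (hMN : Cardinal.mk M = Cardinal.mk N)
    (hM : Cardinal.aleph0 < Cardinal.mk M) (BM : ℕ → M → M → Prop) (BN : ℕ → N → N → Prop)
    (v : ℕ → M) (hv : Set.InjOn v {x | ∃ i, ∃ y, A i x y ∨ A i y x})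
    (hv2 : ∀ i, ∀ w w' : M, BM i w w' ↔ ∃ x y, A i x y ∧ v x = w ∧ v y = w')
    (u : ℕ → N) (hu : Set.InjOn u {x | ∃ i, ∃ y, A i x y ∨ A i y x})
    (hu2 : ∀ i, ∀ w w' : N, BN i w w' ↔ ∃ x y, A i x y ∧ u x = w ∧ u y = w') :
    ∃ e : M ≃ N, ∀ i x y, BM i x y ↔ BN i (e x) (e y) := by
  classical
  have hD1 : ∀ i a b, A i a b → a ∈ {x | ∃ i, ∃ y, A i x y ∨ A i y x} :=
    fun i a b h => ⟨i, b, Or.inl h⟩
  have hD2 : ∀ i a b, A i a b → b ∈ {x | ∃ i, ∃ y, A i x y ∨ A i y x} :=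
    fun i a b h => ⟨i, a, Or.inr h⟩
  generalize {x | ∃ i, ∃ y, A i x y ∨ A i y x} = D at hv hu hD1 hD2
  have hMi : Infinite M := Cardinal.infinite_iff.2 hM.le
  have hN : Cardinal.aleph0 < Cardinal.mk N := hMN ▸ hM
  have hNi : Infinite N := Cardinal.infinite_iff.2 hN.le
  have cM : Cardinal.mk ((v '' D : Set M)) < Cardinal.mk M :=
    lt_of_le_of_lt (Cardinal.le_aleph0_iff_set_countable.2 ((Set.to_countable D).image v)) hM
  have cN : Cardinal.mk ((u '' D : Set N)) < Cardinal.mk N :=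
    lt_of_le_of_lt (Cardinal.le_aleph0_iff_set_countable.2 ((Set.to_countable D).image u)) hN
  have hc : Cardinal.mk ((v '' D)ᶜ : Set M) = Cardinal.mk ((u '' D)ᶜ : Set N) := by
    rw [Cardinal.mk_compl_of_infinite _ cM, Cardinal.mk_compl_of_infinite _ cN, hMN]
  obtain ⟨e1⟩ := Cardinal.eq.1 hc
  let e0 : (v '' D : Set M) ≃ (u '' D : Set N) :=
    (Equiv.Set.imageOfInjOn v D hv).symm.trans (Equiv.Set.imageOfInjOn u D hu)
  let e : M ≃ N := (Equiv.Set.sumCompl (v '' D)).symm.trans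
    ((Equiv.sumCongr e0 e1).trans (Equiv.Set.sumCompl (u '' D)))
  have he : ∀ a ∈ D, e (v a) = u a := by
    intro a ha
    have hm : v a ∈ v '' D := ⟨a, ha, rfl⟩
    have h1 : (Equiv.Set.sumCompl (v '' D)).symm (v a) = Sum.inl ⟨v a, hm⟩ :=
      Equiv.Set.sumCompl_symm_apply_of_mem hm
    have h2 : e0 ⟨v a, hm⟩ = ⟨u a, ⟨a, ha, rfl⟩⟩ := by
      have h3 : (⟨v a, hm⟩ : (v '' D : Set M)) = Equiv.Set.imageOfInjOn v D hv ⟨a, ha⟩ := rfl
      simp only [e0, Equiv.trans_apply]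
      rw [h3, Equiv.symm_apply_apply]
      rfl
    simp only [e, Equiv.trans_apply]
    rw [h1, Equiv.sumCongr_apply, Sum.map_inl, h2]
    exact Equiv.Set.sumCompl_apply_inl _ _
  refine ⟨e, fun i x y => ?_⟩
  rw [hv2, hu2]
  constructor
  · rintro ⟨a, b, hab, rfl, rfl⟩
    exact ⟨a, b, hab, (he a (hD1 i a b hab)).symm, (he b (hD2 i a b hab)).symm⟩
  · rintro ⟨a, b, hab, h1, h2⟩
    refine ⟨a, b, hab, ?_, ?_⟩
    · apply e.injective
      rw [he a (hD1 i a b hab), h1]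
    · apply e.injective
      rw [he b (hD2 i a b hab), h2]

end Pool.Agent.Helper750.UC.J_equiv_of
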