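import Pool.Agent.Helper750.UC.Base
import Pool.Agent.Helper446.Comp

set_option autoImplicit false

namespace Pool.Agent.Helper750.UC.J_exists_lbl

open Pool.Agent.Helper750.UC

open FirstOrder FirstOrder.Language Pool.Agent.Helper158.FCD

/-- an infinite computable set of naturals has a computable increasing enumeration -/
theorem lbl_enumN (P : ℕ → Bool) (hP : Computable P) (hinf : ∀ n, ∃ m, n ≤ m ∧ P m = true) :
    ∃ g : ℕ → ℕ, Computable g ∧ StrictMono g ∧ ∀ m, (∃ k, g k = m) ↔ P m = true := by
  classical
  let next : ℕ → ℕ := fun n => Nat.find (hinf n)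
  have hn1 : ∀ n, n ≤ next n := fun n => (Nat.find_spec (hinf n)).1
  have hn2 : ∀ n, P (next n) = true := fun n => (Nat.find_spec (hinf n)).2
  have hn3 : ∀ n m, n ≤ m → P m = true → next n ≤ m := fun n m h1 h2 =>
    Nat.find_min' (hinf n) ⟨h1, h2⟩
  have hnext : Computable next := by
    apply Pool.Agent.Helper446.RE.computable_of_graph
    have h1 : REPred fun x : ℕ × ℕ => (x.1 ≤ x.2 ∧ P x.2 = true) ∧
        ∀ i < x.2, ((!(decide (x.1 ≤ i) && P i)) = true) := by
      refine Pool.Agent.Helper446.RE.and (Pool.Agent.Helper446.RE.and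
        (Pool.Agent.Helper446.RE.le Computable.fst Computable.snd)
        (Pool.Agent.Helper446.RE.of_bool (hP.comp Computable.snd))) ?_
      refine Pool.Agent.Helper446.RE.all_lt
        (p := fun (x : ℕ × ℕ) (i : ℕ) => (!(decide (x.1 ≤ i) && P i)) = true) ?_ Computable.snd
      refine Pool.Agent.Helper446.RE.of_bool ?_
      have h2 : Computable fun x : (ℕ × ℕ) × ℕ => decide (x.1.1 ≤ x.2) :=
        Pool.Agent.Helper446.RE.cdecide (Pool.Agent.Helper446.RE.cp_le
          (Computable.fst.comp Computable.fst) Computable.snd)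
      exact Pool.Agent.Helper446.RE.cnot
        (Pool.Agent.Helper446.RE.cand h2 (hP.comp Computable.snd))
    refine h1.of_eq fun x => ?_
    constructor
    · rintro ⟨⟨h2, h3⟩, h4⟩
      refine le_antisymm (hn3 _ _ h2 h3) ?_
      by_contra hcon
      have h5 := h4 (next x.1) (by omega)
      have h6 := hn1 x.1
      have h7 := hn2 x.1
      simp [h6, h7] at h5
    · intro h2
      rw [← h2]
      refine ⟨⟨hn1 _, hn2 _⟩, fun i hi => ?_⟩
      by_contra hcon
      have h5 : x.1 ≤ i ∧ P i = true := by
        simpa using hcon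
      have h6 := hn3 _ _ h5.1 h5.2
      omega
  let g : ℕ → ℕ := fun k => Nat.rec (next 0) (fun _ p => next (p + 1)) k
  have hg0 : g 0 = next 0 := rfl
  have hgs : ∀ k, g (k + 1) = next (g k + 1) := fun _ => rfl
  have hg : Computable g := by
    have h1 : Computable₂ fun (_ : ℕ) (y : ℕ × ℕ) => next (y.2 + 1) :=
      hnext.comp (Computable.succ.comp (Computable.snd.comp Computable.snd))
    exact Computable.nat_rec (f := fun k : ℕ => k) (g := fun _ : ℕ => next 0)
      (h := fun (_ : ℕ) (y : ℕ × ℕ) => next (y.2 + 1)) Computable.id (Computable.const _) h1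
  have hmono : StrictMono g := by
    refine strictMono_nat_of_lt_succ fun k => ?_
    rw [hgs]
    have := hn1 (g k + 1)
    omega
  have hPg : ∀ k, P (g k) = true := by
    intro k
    cases k with
    | zero => rw [hg0]; exact hn2 0
    | succ k => rw [hgs]; exact hn2 _
  refine ⟨g, hg, hmono, fun m => ⟨?_, ?_⟩⟩
  · rintro ⟨k, rfl⟩
    exact hPg k
  · intro hm
    have hex : ∃ k, m ≤ g k := ⟨m, hmono.le_apply⟩
    obtain ⟨k, hk1, hk2'⟩ := Nat.lt_wfRel.wf.has_min {k | m ≤ g k} hex
    have hk2 : ∀ j < k, ¬ m ≤ g j := fun j hj h => hk2' j h hj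
    refine ⟨k, le_antisymm ?_ hk1⟩
    cases k with
    | zero => rw [hg0]; exact hn3 _ _ (Nat.zero_le _) hm
    | succ k =>
      have h1 : ¬ m ≤ g k := hk2 k (by omega)
      rw [hgs]
      exact hn3 _ _ (by omega) hm

theorem lbl_sx_primrec : Primrec₂ sx := by
  have hx : Primrec fun b : Bool × Bool => xor b.1 b.2 := Primrec.dom_finite _
  have h : Primrec fun p : List Bool × List Bool =>
      (List.range (min p.1.length p.2.length)).map
        (fun i => xor (p.1[i]?.getD false) (p.2[i]?.getD false)) := by
    refine Primrec.list_map (Primrec.list_range.comp (Primrec.nat_min.comp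
      (Primrec.list_length.comp Primrec.fst) (Primrec.list_length.comp Primrec.snd))) ?_
    have h1 : Primrec fun q : (List Bool × List Bool) × ℕ => (q.1.1[q.2]?).getD false :=
      Primrec.option_getD.comp (Primrec.list_getElem?.comp (Primrec.fst.comp Primrec.fst)
        Primrec.snd) (Primrec.const false)
    have h2 : Primrec fun q : (List Bool × List Bool) × ℕ => (q.1.2[q.2]?).getD false :=
      Primrec.option_getD.comp (Primrec.list_getElem?.comp (Primrec.snd.comp Primrec.fst)
        Primrec.snd) (Primrec.const false)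
    exact hx.comp (h1.pair h2)
  refine h.of_eq fun p => ?_
  unfold sx
  apply List.ext_getElem
  · simp
  · intro i h1 h2
    simp only [List.length_map, List.length_range] at h1
    have h3 : i < p.1.length := lt_of_lt_of_le h1 (min_le_left _ _)
    have h4 : i < p.2.length := lt_of_lt_of_le h1 (min_le_right _ _)
    simp [h3, h4]

theorem lbl_sx_self (y : List Bool) : sx y y = List.replicate y.length false := by
  unfold sx
  induction y with
  | nil => rfl
  | cons b y ih =>
    rw [List.zipWith_cons_cons, ih, List.length_cons, List.replicate_succ]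
    simp

theorem exists_lbl (T : TorsorData) (B : ℕ → List Bool) (hB : ∀ ℓ, (B ℓ).length = ℓ)
    (hBc : Computable B) :
    ∃ lbl : ℕ → List Bool, Computable lbl ∧ Function.Injective lbl ∧
      ∀ x, (∃ k, lbl k = x) ↔ (x ≠ [] ∧ Lim T.Est (sx x (B x.length))) := by
  classical
  let S : List Bool → Prop := fun x => x ≠ [] ∧ ∃ t, T.Est t (sx x (B x.length)) = true
  have hSre : REPred S := by
    refine Pool.Agent.Helper446.RE.and
      (Pool.Agent.Helper446.RE.ne Computable.id (Computable.const [])) ?_
    refine Pool.Agent.Helper446.RE.exN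
      (p := fun (x : List Bool) (t : ℕ) => T.Est t (sx x (B x.length)) = true) ?_
    refine Pool.Agent.Helper446.RE.of_bool ?_
    exact T.compE.comp Computable.snd (lbl_sx_primrec.to_comp.comp Computable.fst
      (hBc.comp (Computable.list_length.comp Computable.fst)))
  have hSB : ∀ ℓ, 1 ≤ ℓ → S (B ℓ) := by
    intro ℓ hℓ
    refine ⟨?_, ?_⟩
    · intro h
      have h1 := hB ℓ
      rw [h] at h1
      simp at h1
      omega
    · rw [hB ℓ, lbl_sx_self, hB ℓ]
      exact T.zero ℓ
  obtain ⟨f, hf, hfS⟩ := Pool.Agent.Helper446.RE.exists_enum hSre (hSB 1 (le_refl 1))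
  let P : ℕ → Bool := fun n =>
    !(Pool.Agent.Helper446.RE.exB (fun i => decide (f i = f n)) n)
  have hPiff : ∀ n, P n = true ↔ ∀ i < n, f i ≠ f n := by
    intro n
    have h1 := Pool.Agent.Helper446.RE.exB_iff (fun i => decide (f i = f n)) n
    simp only [P, Bool.not_eq_true']
    rw [← Bool.not_eq_true, h1]
    push Not
    simp
  have hPc : Computable P := by
    refine Pool.Agent.Helper446.RE.cnot ?_
    refine Pool.Agent.Helper446.RE.computable_exB
      (q := fun (n : ℕ) (i : ℕ) => decide (f i = f n)) ?_ Computable.id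
    exact Pool.Agent.Helper446.RE.cdecide (p := fun x : ℕ × ℕ => f x.2 = f x.1)
      (Pool.Agent.Helper446.RE.cp_eq (hf.comp Computable.snd) (hf.comp Computable.fst))
  have hinf : ∀ n, ∃ m, n ≤ m ∧ P m = true := by
    intro N
    let ℓ := (Finset.range N).sup (fun i => (f i).length) + 1
    have hex : ∃ n, f n = B ℓ := (hfS _).1 (hSB ℓ (by omega))
    refine ⟨Nat.find hex, ?_, ?_⟩
    · by_contra hcon
      have h1 := Nat.find_spec hex
      have h2 : (f (Nat.find hex)).length ≤ (Finset.range N).sup (fun i => (f i).length) :=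
        Finset.le_sup (f := fun i => (f i).length) (Finset.mem_range.2 (by omega))
      rw [h1, hB] at h2
      omega
    · rw [hPiff]
      intro i hi h1
      rw [Nat.find_spec hex] at h1
      exact Nat.find_min hex hi h1
  obtain ⟨g, hg, hmono, hrange⟩ := lbl_enumN P hPc hinf
  refine ⟨fun k => f (g k), hf.comp hg, ?_, ?_⟩
  · intro k k' h
    rcases lt_trichotomy k k' with h1 | h1 | h1
    · exact absurd h ((hPiff _).1 ((hrange _).1 ⟨k', rfl⟩) (g k) (hmono h1))
    · exact h1
    · exact absurd h.symm ((hPiff _).1 ((hrange _).1 ⟨k, rfl⟩) (g k') (hmono h1))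
  · intro x
    constructor
    · rintro ⟨k, rfl⟩
      exact (hfS _).2 ⟨g k, rfl⟩
    · intro hx
      have hex : ∃ n, f n = x := (hfS x).1 hx
      have h1 : P (Nat.find hex) = true := by
        rw [hPiff]
        intro i hi h2
        rw [Nat.find_spec hex] at h2
        exact Nat.find_min hex hi h2
      obtain ⟨k, hk⟩ := (hrange _).2 h1
      refine ⟨k, ?_⟩
      simp only
      rw [hk]
      exact Nat.find_spec hex

end Pool.Agent.Helper750.UC.J_exists_lbl
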