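import Pool.Agent.Helper750.UC.Base

set_option autoImplicit false

namespace Pool.Agent.Helper750.UC.J_glue

open Pool.Agent.Helper750.UC

open FirstOrder FirstOrder.Language Pool.Agent.Helper158.FCD

theorem glue (A : ℕ → ℕ → ℕ → Prop) (hfin : ∀ i, {p : ℕ × ℕ | A i p.1 p.2}.Finite)
    (N : Type) (B : ℕ → N → N → Prop)
    (h : ∀ n : ℕ, ∃ v : ℕ → N, Set.InjOn v {x | ∃ i < n, ∃ y, A i x y ∨ A i y x} ∧
      ∀ i < n, ∀ w w' : N, B i w w' ↔ ∃ x y, A i x y ∧ v x = w ∧ v y = w') :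
    ∃ v : ℕ → N, Set.InjOn v {x | ∃ i, ∃ y, A i x y ∨ A i y x} ∧
      ∀ i, ∀ w w' : N, B i w w' ↔ ∃ x y, A i x y ∧ v x = w ∧ v y = w' := by
  classical
  choose V hV1 hV2 using h
  let U : Ultrafilter ℕ := Filter.hyperfilter ℕ
  have hUgt : ∀ k : ℕ, ∀ᶠ n in (U : Filter ℕ), k < n := by
    intro k
    have h1 : ∀ᶠ n in Filter.cofinite, k < n := by
      rw [Nat.cofinite_eq_atTop]
      exact Filter.eventually_gt_atTop k
    exact Filter.hyperfilter_le_cofinite h1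
  have hBfin : ∀ i, {w : N | ∃ w', B i w w' ∨ B i w' w}.Finite := by
    intro i
    have h1 : ({p : ℕ × ℕ | A i p.1 p.2}.image (fun p => V (i + 1) p.1) ∪
        {p : ℕ × ℕ | A i p.1 p.2}.image (fun p => V (i + 1) p.2)).Finite :=
      ((hfin i).image _).union ((hfin i).image _)
    refine h1.subset ?_
    rintro w ⟨w', hw | hw⟩
    · obtain ⟨x, y, hA, hx, hy⟩ := (hV2 (i + 1) i (Nat.lt_succ_self i) w w').mp hw
      exact Or.inl ⟨(x, y), hA, hx⟩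
    · obtain ⟨x, y, hA, hx, hy⟩ := (hV2 (i + 1) i (Nat.lt_succ_self i) w' w).mp hw
      exact Or.inr ⟨(x, y), hA, hy⟩
  have hlim : ∀ x, (∃ i, ∃ y, A i x y ∨ A i y x) → ∃ w, ∀ᶠ n in (U : Filter ℕ), V n x = w := by
    rintro x ⟨i, y, hxy⟩
    have h1 : ∀ᶠ n in (U : Filter ℕ), ∃ w ∈ {w : N | ∃ w', B i w w' ∨ B i w' w}, V n x = w := by
      filter_upwards [hUgt i] with n hn
      refine ⟨V n x, ⟨V n y, ?_⟩, rfl⟩
      rcases hxy with hxy | hxy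
      · exact Or.inl ((hV2 n i hn _ _).mpr ⟨x, y, hxy, rfl, rfl⟩)
      · exact Or.inr ((hV2 n i hn _ _).mpr ⟨y, x, hxy, rfl, rfl⟩)
    obtain ⟨w, _, hw⟩ := (Ultrafilter.eventually_exists_mem_iff (hBfin i)).mp h1
    exact ⟨w, hw⟩
  let v : ℕ → N := fun x => if hx : ∃ i, ∃ y, A i x y ∨ A i y x then (hlim x hx).choose else V 0 x
  have hv : ∀ x, (∃ i, ∃ y, A i x y ∨ A i y x) → ∀ᶠ n in (U : Filter ℕ), V n x = v x := by
    intro x hx
    have h1 := (hlim x hx).choose_spec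
    show ∀ᶠ n in (U : Filter ℕ), V n x = if hx : ∃ i, ∃ y, A i x y ∨ A i y x then (hlim x hx).choose else V 0 x
    rw [dif_pos hx]
    exact h1
  refine ⟨v, ?_, ?_⟩
  · rintro x hx y hy hxy
    obtain ⟨i, hi⟩ := hx
    obtain ⟨j, hj⟩ := hy
    obtain ⟨n, h1, h2, h3, h4⟩ := ((hv x ⟨i, hi⟩).and ((hv y ⟨j, hj⟩).and
      ((hUgt i).and (hUgt j)))).exists
    exact hV1 n ⟨i, h3, hi⟩ ⟨j, h4, hj⟩ (by rw [h1, h2, hxy])
  · intro i w w'
    have h1 : ∀ᶠ n in (U : Filter ℕ), ∀ p ∈ {p : ℕ × ℕ | A i p.1 p.2},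
        V n p.1 = v p.1 ∧ V n p.2 = v p.2 := by
      rw [Filter.eventually_all_finite (hfin i)]
      intro p hp
      exact (hv p.1 ⟨i, p.2, Or.inl hp⟩).and (hv p.2 ⟨i, p.1, Or.inr hp⟩)
    obtain ⟨n, h2, h3⟩ := (h1.and (hUgt i)).exists
    rw [hV2 n i h3 w w']
    constructor
    · rintro ⟨x, y, hA, hx, hy⟩
      have h4 := h2 (x, y) hA
      exact ⟨x, y, hA, by rw [← h4.1]; exact hx, by rw [← h4.2]; exact hy⟩
    · rintro ⟨x, y, hA, hx, hy⟩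
      have h4 := h2 (x, y) hA
      exact ⟨x, y, hA, by rw [h4.1]; exact hx, by rw [h4.2]; exact hy⟩

end Pool.Agent.Helper750.UC.J_glue
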