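import Pool.Agent.Helper750.UC.Base
import Pool.Agent.Helper446.Comp

set_option autoImplicit false

namespace Pool.Agent.Helper750.UC.J_normal

open Pool.Agent.Helper750.UC

open FirstOrder FirstOrder.Language Pool.Agent.Helper158.FCD

section aux

open Pool.Agent.Helper446

theorem RS_even (lbl : ℕ → List Bool) (c x y : ℕ) : RS lbl (2 * c) x y ↔
    x % 2 = 0 ∧ y % 2 = 0 ∧ x ≠ y ∧ x / 4 = c ∧ y / 4 = c := by
  unfold RS
  rw [if_pos (by omega), show 2 * c / 2 = c by omega]

theorem RS_odd (lbl : ℕ → List Bool) (l x y : ℕ) : RS lbl (2 * l + 1) x y ↔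
    x % 2 = 1 ∧ y % 2 = 0 ∧ (lbl (x / 2)).length = l ∧ y / 4 < l ∧
      (lbl (x / 2)).getD (y / 4) false = decide ((y / 2) % 2 = 1) := by
  unfold RS
  rw [if_neg (by omega), show (2 * l + 1) / 2 = l by omega]

theorem total_unif {α β : Type*} [Primcodable α] [Primcodable β] {r : α → β → Prop}
    (hr : REPred fun x : α × β => r x.1 x.2) (ht : ∀ a, ∃ b, r a b) :
    ∃ f : α → β, Computable f ∧ ∀ a, r a (f a) := by
  obtain ⟨g, hg, h1, h2⟩ := RE.uniformize hr
  refine ⟨fun a => (g a).get ((h1 a).2 (ht a)), ?_, ?_⟩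
  · exact hg.of_eq_tot fun a => Part.get_mem _
  · intro a
    exact h2 a _ (Part.get_mem _)

theorem comp_count (p : ℕ → Prop) [DecidablePred p] (hp : ComputablePred p) :
    Computable (fun n => Nat.count p n) := by
  have h2 : Computable fun y : ℕ × (ℕ × ℕ) => y.2.2 + bif decide (p y.2.1) then 1 else 0 := by
    have h3 : Computable fun n => decide (p n) := RE.cdecide hp
    exact Primrec.nat_add.to_comp.comp (Computable.snd.comp Computable.snd)
      (Computable.cond (h3.comp (Computable.fst.comp Computable.snd)) (Computable.const 1)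
        (Computable.const 0))
  have h := Computable.nat_rec (f := fun n : ℕ => n) (g := fun _ : ℕ => 0)
    (h := fun (_ : ℕ) (y : ℕ × ℕ) => y.2 + bif decide (p y.1) then 1 else 0) Computable.id
    (Computable.const 0) h2
  refine h.of_eq fun n => ?_
  induction n with
  | zero => simp
  | succ n ih =>
    rw [Nat.count_succ, ← ih]
    by_cases hp : p n <;> simp [hp]

theorem comp_nth (p : ℕ → Prop) (hp : ComputablePred p) (hinf : (setOf p).Infinite) :
    Computable (fun k => Nat.nth p k) := by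
  classical
  refine RE.computable_of_graph ?_
  have h1 : REPred fun x : ℕ × ℕ => p x.2 ∧ Nat.count p x.2 = x.1 :=
    RE.and (RE.comp (RE.of_comput hp) Computable.snd)
      (RE.eq ((comp_count p hp).comp Computable.snd) Computable.fst)
  refine h1.of_eq fun x => ?_
  constructor
  · rintro ⟨h2, h3⟩
    rw [← h3, Nat.nth_count h2]
  · intro h2
    rw [← h2]
    exact ⟨Nat.nth_mem_of_infinite hinf _, Nat.count_nth_of_infinite hinf _⟩

/-- the labelling with given lengths and bits -/
def lblOf (b : ℕ → ℕ → Bool) (len : ℕ → ℕ) (k : ℕ) : List Bool := (List.range (len k)).map (b k)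

theorem comp_lblOf {b : ℕ → ℕ → Bool} {len : ℕ → ℕ} (hb : Computable₂ b) (hl : Computable len) :
    Computable (lblOf b len) := by
  have h2 : Computable fun y : ℕ × (ℕ × List Bool) => y.2.2 ++ [b y.1 y.2.1] :=
    Computable.list_append.comp (Computable.snd.comp Computable.snd)
      (Computable.list_cons.comp (hb.comp Computable.fst (Computable.fst.comp Computable.snd))
        (Computable.const []))
  have h := Computable.nat_rec (f := len) (g := fun _ : ℕ => ([] : List Bool))
    (h := fun (k : ℕ) (y : ℕ × List Bool) => y.2 ++ [b k y.1]) hl (Computable.const []) h2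
  refine h.of_eq fun k => ?_
  unfold lblOf
  generalize len k = n
  induction n with
  | zero => simp
  | succ n ih =>
    rw [List.range_succ, List.map_append, ← ih]
    simp

theorem length_lblOf (b : ℕ → ℕ → Bool) (len : ℕ → ℕ) (k : ℕ) :
    (lblOf b len k).length = len k := by
  simp [lblOf]

theorem getD_lblOf (b : ℕ → ℕ → Bool) (len : ℕ → ℕ) (k c : ℕ) (hc : c < len k) :
    (lblOf b len k).getD c false = b k c := by
  simp [lblOf, List.getD_eq_getElem?_getD, hc]

end aux

open Pool.Agent.Helper446 in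
theorem normal (lbl : ℕ → List Bool) (h : Function.Injective lbl) (hne : ∀ k, lbl k ≠ [])
    (C : ℕ → ℕ → ℕ → Prop) (hC : IsComp C) (g : ℕ → ℕ) (hg : IsIsoN (RS lbl) C g) :
    ∃ lbl' : ℕ → List Bool, Computable lbl' ∧ Function.Injective lbl' ∧ (∀ k, lbl' k ≠ []) ∧
      ∃ f, Computable f ∧ IsIsoN (RS lbl') C f := by
  classical
  obtain ⟨hgb, hgi⟩ := hg
  have hC' : ComputablePred fun p : ℕ × ℕ × ℕ => C p.1 p.2.1 p.2.2 := hC
  have reC := RE.of_comput hC'
  obtain ⟨Lab, hLabd⟩ : ∃ Lab : ℕ → Prop, ∀ s, Lab s ↔ ∃ l m, C (2 * l + 1) s m := ⟨_, fun _ => Iff.rfl⟩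
  have hlen : ∀ k, 0 < (lbl k).length := fun k => List.length_pos_iff.2 (hne k)
  have hLab1 : ∀ x, x % 2 = 1 → Lab (g x) := by
    intro x hx
    rw [hLabd]
    refine ⟨(lbl (x / 2)).length, g (2 * ((lbl (x / 2)).getD 0 false).toNat), ?_⟩
    rw [← hgi, RS_odd]
    refine ⟨hx, by omega, rfl, ?_, ?_⟩
    · cases (lbl (x / 2)).getD 0 false <;> simpa using hlen _
    · cases hb : (lbl (x / 2)).getD 0 false <;> simpa [List.getD_eq_getElem?_getD] using hb
  have hLab0 : ∀ x, x % 2 = 0 → ∃ c q, C (2 * c) (g x) q := by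
    intro x hx
    refine ⟨x / 4, g (if x % 4 = 0 then x + 2 else x - 2), ?_⟩
    rw [← hgi, RS_even]
    split_ifs <;> omega
  have hLab2 : ∀ x, Lab (g x) → x % 2 = 1 := by
    intro x hx
    obtain ⟨l, m, hm⟩ := (hLabd _).1 hx
    obtain ⟨y, rfl⟩ := hgb.2 m
    rw [← hgi, RS_odd] at hm
    exact hm.1
  have re1 : REPred Lab := by
    have h1 : REPred fun s : ℕ => ∃ l m, C (2 * l + 1) s m := by
      refine RE.exN (p := fun s l => ∃ m, C (2 * l + 1) s m) ?_
      refine RE.exN (p := fun (x : ℕ × ℕ) m => C (2 * x.2 + 1) x.1 m) ?_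
      exact RE.comp reC (f := fun y : (ℕ × ℕ) × ℕ => (2 * y.1.2 + 1, y.1.1, y.2)) (by fun_prop)
    exact h1.of_eq fun s => (hLabd s).symm
  have re2 : REPred fun s => ¬ Lab s := by
    have h1 : REPred fun s : ℕ => ∃ c q, C (2 * c) s q := by
      refine RE.exN (p := fun s c => ∃ q, C (2 * c) s q) ?_
      refine RE.exN (p := fun (x : ℕ × ℕ) q => C (2 * x.2) x.1 q) ?_
      exact RE.comp reC (f := fun y : (ℕ × ℕ) × ℕ => (2 * y.1.2, y.1.1, y.2)) (by fun_prop)
    refine h1.of_eq fun s => ?_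
    obtain ⟨x, rfl⟩ := hgb.2 s
    constructor
    · rintro ⟨c, q, hq⟩ hl
      obtain ⟨y, rfl⟩ := hgb.2 q
      rw [← hgi, RS_even] at hq
      have := hLab2 x hl
      omega
    · intro hl
      refine hLab0 x ?_
      by_contra hx
      exact hl (hLab1 x (by omega))
  have cLab : ComputablePred Lab := RE.cp_of_re re1 re2
  have hinf : (setOf Lab).Infinite := by
    have h1 : (Set.range fun k : ℕ => g (2 * k + 1)).Infinite :=
      Set.infinite_range_of_injective fun a b hab => by
        have := hgb.1 hab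
        omega
    refine h1.mono ?_
    rintro _ ⟨k, rfl⟩
    exact hLab1 _ (by omega)
  obtain ⟨s, hs⟩ : ∃ s : ℕ → ℕ, s = fun k => Nat.nth Lab k := ⟨_, rfl⟩
  have hsc : Computable s := by
    rw [hs]
    exact comp_nth Lab cLab hinf
  have hsL : ∀ k, Lab (s k) := by
    intro k
    rw [hs]
    exact Nat.nth_mem_of_infinite hinf k
  have hsinj : Function.Injective s := by
    rw [hs]
    exact Nat.nth_injective hinf
  have hssurj : ∀ y, Lab y → ∃ k, s k = y := by
    intro y hy
    refine ⟨Nat.count Lab y, ?_⟩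
    rw [hs]
    exact Nat.nth_count hy
  -- the pairs
  obtain ⟨w, hwc, hw⟩ : ∃ w : ℕ → ℕ × ℕ, Computable w ∧ ∀ c, C (2 * c) (w c).1 (w c).2 := by
    refine total_unif (r := fun (c : ℕ) (p : ℕ × ℕ) => C (2 * c) p.1 p.2) ?_ ?_
    · exact RE.comp reC (f := fun x : ℕ × (ℕ × ℕ) => (2 * x.1, x.2.1, x.2.2)) (by fun_prop)
    · intro c
      refine ⟨(g (4 * c), g (4 * c + 2)), ?_⟩
      show C (2 * c) (g (4 * c)) (g (4 * c + 2))
      rw [← hgi, RS_even]
      omega
  obtain ⟨u, huc, hu⟩ : ∃ u : ℕ → ℕ × ℕ, Computable u ∧ ∀ k, C (2 * (u k).1 + 1) (s k) (u k).2 := by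
    refine total_unif (r := fun (k : ℕ) (p : ℕ × ℕ) => C (2 * p.1 + 1) (s k) p.2) ?_ ?_
    · exact RE.comp reC (f := fun x : ℕ × (ℕ × ℕ) => (2 * x.2.1 + 1, s x.1, x.2.2)) (by fun_prop)
    · intro k
      obtain ⟨l, m, hm⟩ := (hLabd _).1 (hsL k)
      exact ⟨(l, m), hm⟩
  obtain ⟨f, hf⟩ : ∃ f : ℕ → ℕ, f = fun n => if n % 2 = 0 then
      (if (n / 2) % 2 = 0 then (w (n / 4)).1 else (w (n / 4)).2) else s (n / 2) := ⟨_, rfl⟩
  have hdiv : ∀ m : ℕ, Computable fun n : ℕ => n / m := fun m =>
    Primrec.nat_div.to_comp.comp Computable.id (Computable.const m)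
  have hmod : ∀ m : ℕ, Computable fun n : ℕ => n % m := fun m =>
    Primrec.nat_mod.to_comp.comp Computable.id (Computable.const m)
  have hfc : Computable f := by
    rw [hf]
    refine RE.cite (RE.cp_eq (hmod 2) (Computable.const 0)) ?_ (hsc.comp (hdiv 2))
    exact RE.cite (RE.cp_eq ((hmod 2).comp (hdiv 2)) (Computable.const 0))
      (Computable.fst.comp (hwc.comp (hdiv 4))) (Computable.snd.comp (hwc.comp (hdiv 4)))
  have hf0 : ∀ c, f (4 * c) = (w c).1 := by
    intro c
    rw [hf]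
    show (if (4 * c) % 2 = 0 then
      (if (4 * c / 2) % 2 = 0 then (w (4 * c / 4)).1 else (w (4 * c / 4)).2) else s (4 * c / 2)) = _
    rw [if_pos (by omega), if_pos (by omega), show 4 * c / 4 = c by omega]
  have hf2 : ∀ c, f (4 * c + 2) = (w c).2 := by
    intro c
    rw [hf]
    show (if (4 * c + 2) % 2 = 0 then
      (if ((4 * c + 2) / 2) % 2 = 0 then (w ((4 * c + 2) / 4)).1 else (w ((4 * c + 2) / 4)).2)
        else s ((4 * c + 2) / 2)) = _
    rw [if_pos (by omega), if_neg (by omega), show (4 * c + 2) / 4 = c by omega]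
  have hf1 : ∀ k, f (2 * k + 1) = s k := by
    intro k
    rw [hf]
    show (if (2 * k + 1) % 2 = 0 then
      (if ((2 * k + 1) / 2) % 2 = 0 then (w ((2 * k + 1) / 4)).1 else (w ((2 * k + 1) / 4)).2)
        else s ((2 * k + 1) / 2)) = _
    rw [if_neg (by omega), show (2 * k + 1) / 2 = k by omega]
  choose σ hσ using fun n => hgb.2 (f n)
  have hpair : ∀ c, σ (4 * c) % 2 = 0 ∧ σ (4 * c + 2) % 2 = 0 ∧ σ (4 * c) ≠ σ (4 * c + 2) ∧
      σ (4 * c) / 4 = c ∧ σ (4 * c + 2) / 4 = c := by
    intro c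
    rw [← RS_even lbl c, hgi, hσ, hσ, hf0, hf2]
    exact hw c
  have hod : ∀ k, σ (2 * k + 1) % 2 = 1 := by
    intro k
    apply hLab2
    rw [hσ, hf1]
    exact hsL k
  have hcase : ∀ n : ℕ, (∃ c, n = 4 * c) ∨ (∃ c, n = 4 * c + 2) ∨ ∃ k, n = 2 * k + 1 := by
    intro n
    rcases Nat.even_or_odd n with ⟨a, ha⟩ | ⟨a, ha⟩
    · rcases Nat.even_or_odd a with ⟨b, hb⟩ | ⟨b, hb⟩
      · exact Or.inl ⟨b, by omega⟩
      · exact Or.inr (Or.inl ⟨b, by omega⟩)
    · exact Or.inr (Or.inr ⟨a, ha⟩)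
  have hσinj : Function.Injective σ := by
    intro n m hnm
    rcases hcase n with ⟨c, rfl⟩ | ⟨c, rfl⟩ | ⟨k, rfl⟩ <;>
      rcases hcase m with ⟨d, rfl⟩ | ⟨d, rfl⟩ | ⟨l, rfl⟩
    · have := hpair c
      have := hpair d
      omega
    · obtain ⟨-, -, h3, h4, h5⟩ := hpair c
      obtain ⟨-, -, h3', h4', h5'⟩ := hpair d
      have hcd : c = d := by omega
      subst hcd
      exact absurd hnm h3
    · have := hpair c
      have := hod l
      omega
    · obtain ⟨-, -, h3, h4, h5⟩ := hpair c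
      obtain ⟨-, -, h3', h4', h5'⟩ := hpair d
      have hcd : c = d := by omega
      subst hcd
      exact absurd hnm.symm h3
    · have := hpair c
      have := hpair d
      omega
    · have := hpair c
      have := hod l
      omega
    · have := hpair d
      have := hod k
      omega
    · have := hpair d
      have := hod k
      omega
    · have h1 : s k = s l := by
        rw [← hf1, ← hf1, ← hσ, ← hσ, hnm]
      rw [hsinj h1]
  have hfb : Function.Bijective f := by
    constructor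
    · intro n m hnm
      rw [← hσ, ← hσ] at hnm
      exact hσinj (hgb.1 hnm)
    · intro y
      obtain ⟨x, rfl⟩ := hgb.2 y
      by_cases hx : x % 2 = 1
      · obtain ⟨k, hk⟩ := hssurj _ (hLab1 x hx)
        exact ⟨2 * k + 1, by rw [hf1, hk]⟩
      · obtain ⟨h1, h2, h3, h4, h5⟩ := hpair (x / 4)
        rcases (by omega : x = σ (4 * (x / 4)) ∨ x = σ (4 * (x / 4) + 2)) with h6 | h6
        · exact ⟨4 * (x / 4), by rw [← hσ, ← h6]⟩
        · exact ⟨4 * (x / 4) + 2, by rw [← hσ, ← h6]⟩
  -- lengths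
  have hulen : ∀ k, (lbl (σ (2 * k + 1) / 2)).length = (u k).1 := by
    intro k
    have h1 := hu k
    obtain ⟨m, hm⟩ := hgb.2 (u k).2
    rw [← hm, ← hf1, ← hσ, ← hgi, RS_odd] at h1
    exact h1.2.2.1
  obtain ⟨b, hb⟩ : ∃ b : ℕ → ℕ → Bool, b = fun k c =>
      decide (C (2 * (u k).1 + 1) (s k) (w c).2) := ⟨_, rfl⟩
  have hbc : Computable₂ b := by
    rw [hb]
    exact RE.cdecide (RE.cp_comp hC' (f := fun x : ℕ × ℕ => (2 * (u x.1).1 + 1, s x.1, (w x.2).2))
      (by fun_prop))
  have hbit : ∀ k c, c < (u k).1 → b k c =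
      decide ((lbl (σ (2 * k + 1) / 2)).getD c false = decide ((σ (4 * c + 2) / 2) % 2 = 1)) := by
    intro k c hc
    rw [hb]
    show decide (C (2 * (u k).1 + 1) (s k) (w c).2) = _
    refine decide_eq_decide.2 ?_
    rw [← hf1, ← hf2, ← hσ, ← hσ, ← hgi, RS_odd]
    obtain ⟨h1, h2, h3, h4, h5⟩ := hpair c
    rw [h5]
    constructor
    · exact fun h => h.2.2.2.2
    · exact fun h => ⟨hod k, h2, hulen k, hc, h⟩
  have hlblc : Computable (lblOf b fun k => (u k).1) := comp_lblOf hbc (Computable.fst.comp huc)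
  refine ⟨lblOf b fun k => (u k).1, hlblc, ?_, ?_, f, hfc, hfb, ?_⟩
  · intro k l hkl
    have h1 : (u k).1 = (u l).1 := by
      have := congrArg List.length hkl
      rwa [length_lblOf, length_lblOf] at this
    have h2 : lbl (σ (2 * k + 1) / 2) = lbl (σ (2 * l + 1) / 2) := by
      refine List.ext_getElem ?_ ?_
      · rw [hulen, hulen, h1]
      · intro c hc1 hc2
        have hc1' : c < (u k).1 := by rwa [hulen] at hc1
        have hc2' : c < (u l).1 := by rwa [hulen] at hc2
        have h3 : b k c = b l c := by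
          rw [← getD_lblOf b (fun k => (u k).1) k c hc1', hkl, getD_lblOf _ _ _ _ hc2']
        rw [hbit k c hc1', hbit l c hc2'] at h3
        rw [List.getD_eq_getElem _ _ hc1, List.getD_eq_getElem _ _ hc2] at h3
        have h4 := decide_eq_decide.1 h3
        revert h4
        cases (lbl (σ (2 * k + 1) / 2))[c] <;> cases (lbl (σ (2 * l + 1) / 2))[c] <;>
          cases decide ((σ (4 * c + 2) / 2) % 2 = 1) <;> simp
    have h3 := h h2
    have h4 := hod k
    have h5 := hod l
    have h6 := hσinj (by omega : σ (2 * k + 1) = σ (2 * l + 1))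
    omega
  · intro k hk
    have h1 := length_lblOf b (fun k => (u k).1) k
    rw [hk] at h1
    have h2 := hlen (σ (2 * k + 1) / 2)
    rw [hulen] at h2
    simp at h1
    omega
  · intro i x y
    rw [← hσ, ← hσ, ← hgi]
    obtain ⟨c, rfl | rfl⟩ : ∃ c, i = 2 * c ∨ i = 2 * c + 1 := ⟨i / 2, by omega⟩
    · rw [RS_even, RS_even]
      have hev : ∀ n, (n % 2 = 0 ↔ σ n % 2 = 0) ∧ (n % 2 = 0 → σ n / 4 = n / 4) := by
        intro n
        rcases hcase n with ⟨d, rfl⟩ | ⟨d, rfl⟩ | ⟨k, rfl⟩
        · have := hpair d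
          omega
        · have := hpair d
          omega
        · have := hod k
          omega
      have h1 := hev x
      have h2 := hev y
      have h3 : x ≠ y ↔ σ x ≠ σ y := hσinj.ne_iff.symm
      omega
    · rw [RS_odd, RS_odd, length_lblOf]
      rcases hcase x with ⟨d, rfl⟩ | ⟨d, rfl⟩ | ⟨k, rfl⟩
      · have := hpair d
        omega
      · have := hpair d
        omega
      have hk2 : (2 * k + 1) / 2 = k := by omega
      rw [hk2]
      have hok := hod k
      rcases hcase y with ⟨d, rfl⟩ | ⟨d, rfl⟩ | ⟨l, rfl⟩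
      · obtain ⟨h1, h2, h3, h4, h5⟩ := hpair d
        rw [h4, show 4 * d / 4 = d by omega, hulen]
        constructor
        · rintro ⟨-, -, e3, e4, e5⟩
          refine ⟨hok, h1, e3, e4, ?_⟩
          rw [getD_lblOf _ _ _ _ (by omega), hbit k d (by omega)] at e5
          have e6 : decide ((σ (4 * d) / 2) % 2 = 1) = !decide ((σ (4 * d + 2) / 2) % 2 = 1) := by
            rcases (by omega : (σ (4 * d) / 2 % 2 = 1 ∧ σ (4 * d + 2) / 2 % 2 = 0) ∨
              (σ (4 * d) / 2 % 2 = 0 ∧ σ (4 * d + 2) / 2 % 2 = 1)) with ⟨e7, e8⟩ | ⟨e7, e8⟩ <;>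
              simp [e7, e8]
          have e9 : decide ((4 * d / 2) % 2 = 1) = false := by simp; omega
          rw [e9] at e5
          rw [e6]
          revert e5
          cases (lbl (σ (2 * k + 1) / 2)).getD d false <;>
            cases decide ((σ (4 * d + 2) / 2) % 2 = 1) <;> simp
        · rintro ⟨-, -, e3, e4, e5⟩
          refine ⟨by omega, by omega, e3, e4, ?_⟩
          rw [getD_lblOf _ _ _ _ (by omega), hbit k d (by omega)]
          have e6 : decide ((σ (4 * d) / 2) % 2 = 1) = !decide ((σ (4 * d + 2) / 2) % 2 = 1) := by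
            rcases (by omega : (σ (4 * d) / 2 % 2 = 1 ∧ σ (4 * d + 2) / 2 % 2 = 0) ∨
              (σ (4 * d) / 2 % 2 = 0 ∧ σ (4 * d + 2) / 2 % 2 = 1)) with ⟨e7, e8⟩ | ⟨e7, e8⟩ <;>
              simp [e7, e8]
          have e9 : decide ((4 * d / 2) % 2 = 1) = false := by simp; omega
          rw [e9]
          rw [e6] at e5
          revert e5
          cases (lbl (σ (2 * k + 1) / 2)).getD d false <;>
            cases decide ((σ (4 * d + 2) / 2) % 2 = 1) <;> simp
      · obtain ⟨h1, h2, h3, h4, h5⟩ := hpair d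
        rw [h5, show (4 * d + 2) / 4 = d by omega, hulen]
        have e9 : decide (((4 * d + 2) / 2) % 2 = 1) = true := by simp; omega
        rw [e9]
        constructor
        · rintro ⟨-, -, e3, e4, e5⟩
          refine ⟨hok, h2, e3, e4, ?_⟩
          rw [getD_lblOf _ _ _ _ (by omega), hbit k d (by omega)] at e5
          exact of_decide_eq_true e5
        · rintro ⟨-, -, e3, e4, e5⟩
          refine ⟨by omega, by omega, e3, e4, ?_⟩
          rw [getD_lblOf _ _ _ _ (by omega), hbit k d (by omega)]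
          exact decide_eq_true e5
      · have := hod l
        omega

end Pool.Agent.Helper750.UC.J_normal
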