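import Pool.Agent.Helper750.UC.J_exists_map
import Pool.Agent.Helper750.UC.J_glue
import Pool.Agent.Helper750.UC.J_equiv_of
import Pool.Agent.Helper750.UC.J_exists_lbl
import Pool.Agent.Helper750.UC.J_RS_finite
import Pool.Agent.Helper750.UC.J_RS_comp
import Pool.Agent.Helper750.UC.J_RS_iso
import Pool.Agent.Helper750.UC.J_RS_shift
import Pool.Agent.Helper750.UC.J_normal

set_option autoImplicit false

namespace Pool.Agent.Helper750.UC

alias exists_map := J_exists_map.exists_map
alias glue := J_glue.glue
alias equiv_of := J_equiv_of.equiv_of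
alias exists_lbl := J_exists_lbl.exists_lbl
alias RS_finite := J_RS_finite.RS_finite
alias RS_comp := J_RS_comp.RS_comp
alias RS_iso := J_RS_iso.RS_iso
alias RS_shift := J_RS_shift.RS_shift
alias normal := J_normal.normal

end Pool.Agent.Helper750.UC
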