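import Mathlib
import Pool.Agent.Helper158.FCD.Interface

set_option autoImplicit false

/-!
The language with countably many binary relation symbols, its structures with universe `ℕ`,
computable structures and computable isomorphisms; the structure of a labelling.
-/

namespace Pool.Agent.Helper750.UC

open FirstOrder FirstOrder.Language Pool.Agent.Helper158.FCD

/-- The relation symbols: `r 0, r 1, r 2, ...` are binary, and there are no others. -/
inductive BinRel : ℕ → Type
  | r (i : ℕ) : BinRel 2

/-- The language with the binary relation symbols `r 0, r 1, r 2, ...`, no other relation symbols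
and no function symbols. -/
def BinL : FirstOrder.Language.{0, 0} := ⟨fun _ => Empty, BinRel⟩

/-- The structure in which `r i` is interpreted by `R i`. -/
@[reducible] def binStr {M : Type} (R : ℕ → M → M → Prop) : BinL.Structure M where
  funMap := fun f => Empty.elim f
  RelMap := fun r => match r with
    | .r i => fun x => R i (x 0) (x 1)

/-- The complete theory of the structure `(ℕ, R 0, R 1, ...)`. -/
def ThN (R : ℕ → ℕ → ℕ → Prop) : BinL.Theory := @completeTheory BinL ℕ (binStr R)

/-- The structure `(ℕ, R 0, R 1, ...)` is computable. -/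
def IsComp (R : ℕ → ℕ → ℕ → Prop) : Prop :=
  ComputablePred fun p : ℕ × ℕ × ℕ => R p.1 p.2.1 p.2.2

/-- `f` is an isomorphism from `(ℕ, R 0, R 1, ...)` onto `(ℕ, S 0, S 1, ...)`. -/
def IsIsoN (R S : ℕ → ℕ → ℕ → Prop) (f : ℕ → ℕ) : Prop :=
  Function.Bijective f ∧ ∀ i x y, R i x y ↔ S i (f x) (f y)

/-- The structure of a labelling `lbl`. The elements are `u_c^e = 4 c + 2 e` (`e = 0, 1`) and the
label elements `2 k + 1`. The relation `2 c` holds of the two pairs of different elements of
`{u_c^0, u_c^1}`; the relation `2 ℓ + 1` holds of `2 k + 1` and `u_c^e` if the string `lbl k` has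
length `ℓ`, `c < ℓ` and the bit `c` of this string is `e`. -/
def RS (lbl : ℕ → List Bool) (i n m : ℕ) : Prop :=
  if i % 2 = 0 then n % 2 = 0 ∧ m % 2 = 0 ∧ n ≠ m ∧ n / 4 = i / 2 ∧ m / 4 = i / 2
  else n % 2 = 1 ∧ m % 2 = 0 ∧ (lbl (n / 2)).length = i / 2 ∧ m / 4 < i / 2 ∧
    (lbl (n / 2)).getD (m / 4) false = decide ((m / 2) % 2 = 1)

end Pool.Agent.Helper750.UC
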