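import Pool.Agent.Helper750.UC.Base

set_option autoImplicit false

namespace Pool.Agent.Helper750.UC.J_exists_map

open Pool.Agent.Helper750.UC

open FirstOrder FirstOrder.Language Pool.Agent.Helper158.FCD

theorem exists_map (A : ℕ → ℕ → ℕ → Prop) (hfin : ∀ i, {p : ℕ × ℕ | A i p.1 p.2}.Finite)
    (N : Type) [BinL.Structure N] (hN : N ⊨ ThN A) (n : ℕ) :
    ∃ v : ℕ → N, Set.InjOn v {x | ∃ i < n, ∃ y, A i x y ∨ A i y x} ∧
      ∀ i < n, ∀ w w' : N, Structure.RelMap (L := BinL) (BinRel.r i) ![w, w'] ↔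
        ∃ x y, A i x y ∧ v x = w ∧ v y = w' := by
  classical
  set D : Set ℕ := {x | ∃ i < n, ∃ y, A i x y ∨ A i y x} with hD
  have hDfin : D.Finite := by
    have h1 : (⋃ i ∈ Finset.range n, (Prod.fst '' {p : ℕ × ℕ | A i p.1 p.2} ∪
        Prod.snd '' {p : ℕ × ℕ | A i p.1 p.2})).Finite := by
      refine Set.Finite.biUnion (Finset.finite_toSet _) ?_
      intro i _
      exact ((hfin i).image _).union ((hfin i).image _)
    refine h1.subset ?_
    rintro x ⟨i, hi, y, h | h⟩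
    · refine Set.mem_biUnion (Finset.mem_coe.2 (Finset.mem_range.2 hi)) (Or.inl ⟨(x, y), h, rfl⟩)
    · refine Set.mem_biUnion (Finset.mem_coe.2 (Finset.mem_range.2 hi)) (Or.inr ⟨(y, x), h, rfl⟩)
  haveI : Finite D := hDfin.to_subtype
  have hmem1 : ∀ i < n, ∀ x y, A i x y → x ∈ D := fun i hi x y h => ⟨i, hi, y, Or.inl h⟩
  have hmem2 : ∀ i < n, ∀ x y, A i x y → y ∈ D := fun i hi x y h => ⟨i, hi, x, Or.inr h⟩
  let f1 : {p : D × D // p.1 ≠ p.2} → BinL.Formula (Empty ⊕ D) := fun p =>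
    ∼ (Term.equal (Term.var (Sum.inr p.1.1)) (Term.var (Sum.inr p.1.2)))
  let f2 : Fin n → BinL.Formula (Empty ⊕ D) := fun i =>
    Formula.iAlls (Fin 2)
      ((Relations.formula₂ (BinRel.r (i : ℕ) : BinL.Relations 2)
          (Term.var (Sum.inr 0)) (Term.var (Sum.inr 1)) :
          BinL.Formula ((Empty ⊕ D) ⊕ Fin 2)) ⇔
        (Formula.iSup (fun q : {q : D × D // A i q.1 q.2} =>
          ((Term.equal (Term.var (Sum.inr 0)) (Term.var (Sum.inl (Sum.inr q.1.1))) :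
              BinL.Formula ((Empty ⊕ D) ⊕ Fin 2)) ⊓
            (Term.equal (Term.var (Sum.inr 1)) (Term.var (Sum.inl (Sum.inr q.1.2))))))))
  let ψ : BinL.Formula (Empty ⊕ D) := Formula.iInf f1 ⊓ Formula.iInf f2
  let σ : BinL.Sentence := Formula.iExs D ψ
  have key : ∀ (M : Type) [BinL.Structure M], M ⊨ σ ↔ ∃ v : D → M,
      (∀ x y : D, x ≠ y → v x ≠ v y) ∧
      ∀ i : Fin n, ∀ w : Fin 2 → M, Structure.RelMap (L := BinL) (BinRel.r (i : ℕ)) ![w 0, w 1] ↔
        ∃ q : {q : D × D // A i q.1 q.2}, w 0 = v q.1.1 ∧ w 1 = v q.1.2 := by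
    intro M _
    show σ.Realize M ↔ _
    simp only [σ, ψ, f1, f2, Sentence.Realize, Formula.realize_iExs, Formula.realize_inf,
      Formula.realize_iInf, Formula.realize_not, Formula.realize_equal, Formula.realize_iAlls,
      Formula.realize_iff, Formula.realize_iSup, Formula.realize_rel₂, Term.realize_var,
      Sum.elim_inl, Sum.elim_inr]
    constructor
    · rintro ⟨v, h1, h2⟩
      exact ⟨v, fun x y hxy => h1 ⟨(x, y), hxy⟩, h2⟩
    · rintro ⟨v, h1, h2⟩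
      exact ⟨v, fun p => h1 p.1.1 p.1.2 p.2, h2⟩
  have hσ : σ ∈ ThN A := by
    letI := binStr A
    show σ ∈ BinL.completeTheory ℕ
    rw [mem_completeTheory, key ℕ]
    refine ⟨fun x => x.1, fun x y h h' => h (Subtype.ext h'), ?_⟩
    intro i w
    show A i (![w 0, w 1] 0) (![w 0, w 1] 1) ↔ _
    simp only [Matrix.cons_val_zero, Matrix.cons_val_one]
    constructor
    · intro h
      exact ⟨⟨(⟨w 0, hmem1 i i.2 _ _ h⟩, ⟨w 1, hmem2 i i.2 _ _ h⟩), h⟩, rfl, rfl⟩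
    · rintro ⟨q, h0, h1⟩
      rw [h0, h1]
      exact q.2
  have hNσ : N ⊨ σ := hN.realize_of_mem σ hσ
  obtain ⟨v, hv1, hv2⟩ := (key N).1 hNσ
  have hne : Nonempty N := by
    let τ : BinL.Sentence := (Formula.iExs (Fin 1)
      (Term.equal (Term.var (Sum.inr 0)) (Term.var (Sum.inr 0)) : BinL.Formula (Empty ⊕ Fin 1)))
    have kτ : ∀ (M : Type) [BinL.Structure M], M ⊨ τ ↔ ∃ v : Fin 1 → M, True := by
      intro M _
      show τ.Realize M ↔ _
      simp only [τ, Sentence.Realize, Formula.realize_iExs, Formula.realize_equal]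
    have hτ : τ ∈ ThN A := by
      letI := binStr A
      show τ ∈ BinL.completeTheory ℕ
      rw [mem_completeTheory, kτ ℕ]
      exact ⟨fun _ => 0, trivial⟩
    obtain ⟨u, _⟩ := (kτ N).1 (hN.realize_of_mem τ hτ)
    exact ⟨u 0⟩
  let V : ℕ → N := fun x => if h : x ∈ D then v ⟨x, h⟩ else Classical.choice hne
  have hV : ∀ x (h : x ∈ D), V x = v ⟨x, h⟩ := fun x h => dif_pos h
  refine ⟨V, ?_, ?_⟩
  · intro x hx y hy hxy
    rw [hV x hx, hV y hy] at hxy
    by_contra hne'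
    exact hv1 ⟨x, hx⟩ ⟨y, hy⟩ (fun h => hne' (congrArg Subtype.val h)) hxy
  · intro i hi w w'
    have h := hv2 ⟨i, hi⟩ ![w, w']
    simp only [Matrix.cons_val_zero, Matrix.cons_val_one] at h
    rw [h]
    constructor
    · rintro ⟨q, h0, h1⟩
      exact ⟨q.1.1, q.1.2, q.2, (hV _ q.1.1.2).trans h0.symm, (hV _ q.1.2.2).trans h1.symm⟩
    · rintro ⟨x, y, hxy, h0, h1⟩
      refine ⟨⟨(⟨x, hmem1 i hi _ _ hxy⟩, ⟨y, hmem2 i hi _ _ hxy⟩), hxy⟩, ?_, ?_⟩
      · rw [← h0]; exact hV _ _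
      · rw [← h1]; exact hV _ _

end Pool.Agent.Helper750.UC.J_exists_map
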