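import Pool.Agent.Helper750.UC.All
import Pool.Agent.Helper750.OC.Sx
import Pool.Agent.Helper750.OC.J_exists_z

set_option autoImplicit false

namespace Pool.Agent.Helper750.UC

open FirstOrder FirstOrder.Language Pool.Agent.Helper158.FCD Pool.Agent.Helper750.OC

theorem categorical_of_finite (A : ℕ → ℕ → ℕ → Prop)
    (hfin : ∀ i, {p : ℕ × ℕ | A i p.1 p.2}.Finite) (κ : Cardinal.{0}) (hκ : Cardinal.aleph0 < κ) :
    κ.Categorical (ThN A) := by
  intro M N hM hN
  obtain ⟨v, hv, hv2⟩ := glue A hfin M
    (fun i x y => Structure.RelMap (L := BinL) (BinRel.r i) ![x, y])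
    (fun n => exists_map A hfin M M.is_model n)
  obtain ⟨u, hu, hu2⟩ := glue A hfin N
    (fun i x y => Structure.RelMap (L := BinL) (BinRel.r i) ![x, y])
    (fun n => exists_map A hfin N N.is_model n)
  obtain ⟨e, he⟩ := equiv_of A M N (by rw [hM, hN]) (by rw [hM]; exact hκ) _ _ v hv hv2 u hu hu2
  refine ⟨⟨e, ?_, ?_⟩⟩
  · intro n f
    exact Empty.elim f
  · intro n r x
    cases r with
    | r i =>
      have h := he i (x 0) (x 1)
      have e1 : ![x 0, x 1] = x := by
        funext j
        fin_cases j <;> rfl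
      have e2 : ![e (x 0), e (x 1)] = e ∘ x := by
        funext j
        fin_cases j <;> rfl
      rw [e1, e2] at h
      exact h.symm

theorem isoN_symm {R S : ℕ → ℕ → ℕ → Prop} {f g : ℕ → ℕ} (hf : IsIsoN R S f)
    (h1 : ∀ a, g (f a) = a) (h2 : ∀ b, f (g b) = b) : IsIsoN S R g := by
  refine ⟨⟨fun a b hab => ?_, fun a => ⟨f a, h1 a⟩⟩, fun i x y => ?_⟩
  · rw [← h2 a, ← h2 b, hab]
  · have h := hf.2 i (g x) (g y)
    rw [h2, h2] at h
    exact h.symm

theorem isoN_trans {R S Q : ℕ → ℕ → ℕ → Prop} {f g : ℕ → ℕ} (hf : IsIsoN R S f)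
    (hg : IsIsoN S Q g) : IsIsoN R Q fun a => g (f a) :=
  ⟨hg.1.comp hf.1, fun i x y => (hf.2 i x y).trans (hg.2 i _ _)⟩

/-- closure of `U` under sums -/
theorem U_of {U : List Bool → Prop} (hU : IsU U) {n : ℕ} {x y w : List Bool} (hx : x.length = n)
    (hy : y.length = n) (hw : w.length = n) (ux : U x) (uy : U y)
    (h : ∀ k, w.getD k false = xor (x.getD k false) (y.getD k false)) : U w := by
  have : w = sx x y := by
    apply list_ext_getD
    · rw [sx_len (by rw [hx, hy]), hx, hw]
    · intro k _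
      rw [h k, getD_sx _ _ (by rw [hx, hy])]
  rw [this]
  exact hU.add _ _ (by rw [hx, hy]) ux uy

theorem slen {n : ℕ} {x y : List Bool} (hx : x.length = n) (hy : y.length = n) :
    (sx x y).length = n := by rw [sx_len (by rw [hx, hy]), hx]

theorem sget {n : ℕ} {x y : List Bool} (hx : x.length = n) (hy : y.length = n) (k : ℕ) :
    (sx x y).getD k false = xor (x.getD k false) (y.getD k false) :=
  getD_sx _ _ (by rw [hx, hy]) k

section
variable (T : TorsorData)

theorem nil_iff {n : ℕ} {x y : List Bool} (hx : x.length = n) (hy : y.length = n) :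
    x ≠ [] ↔ y ≠ [] := by
  rw [ne_eq, ne_eq, ← List.length_eq_zero_iff, ← List.length_eq_zero_iff, hx, hy]

theorem shift_iff {U : List Bool → Prop} (hU : IsU U) {B B' : ℕ → List Bool}
    (hB : ∀ ℓ, (B ℓ).length = ℓ) (hB' : ∀ ℓ, (B' ℓ).length = ℓ) (z : ℕ → Bool)
    (hz : ∀ ℓ, U (sx (pre z ℓ) (sx (B ℓ) (B' ℓ)))) (x : List Bool) :
    (x ≠ [] ∧ U (sx x (B x.length))) ↔
      (sx x (pre z x.length) ≠ [] ∧ U (sx (sx x (pre z x.length))
        (B' (sx x (pre z x.length)).length))) := by
  have hp := pre_len z x.length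
  have hb := hB x.length
  have hb' := hB' x.length
  have hl := slen (rfl : x.length = x.length) hp
  rw [hl]
  have u := hz x.length
  refine and_congr (nil_iff rfl hl) ⟨fun h => ?_, fun h => ?_⟩
  · refine U_of hU (slen rfl hb) (slen hp (slen hb hb')) (slen hl hb') h u fun k => ?_
    rw [sget hl hb', sget rfl hp, sget rfl hb, sget hp (slen hb hb'), sget hb hb']
    cases x.getD k false <;> cases (pre z x.length).getD k false <;>
      cases (B x.length).getD k false <;> cases (B' x.length).getD k false <;> rfl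
  · refine U_of hU (slen hl hb') (slen hp (slen hb hb')) (slen rfl hb) h u fun k => ?_
    rw [sget hl hb', sget rfl hp, sget rfl hb, sget hp (slen hb hb'), sget hb hb']
    cases x.getD k false <;> cases (pre z x.length).getD k false <;>
      cases (B x.length).getD k false <;> cases (B' x.length).getD k false <;> rfl

end

end Pool.Agent.Helper750.UC
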