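import Pool.Agent.Helper750.UC.Main
import Pool.Agent.Helper750.OC.MComp

set_option autoImplicit false

namespace Pool.Agent.Helper750.UC

open FirstOrder FirstOrder.Language Pool.Agent.Helper158.FCD Pool.Agent.Helper750.OC

theorem first_len (lbl : ℕ → List Bool) (hc : Computable lbl)
    (h : ∀ ℓ, ℓ ≠ 0 → ∃ k, (lbl k).length = ℓ) :
    ∃ m : ℕ → List Bool, Computable m ∧ (∀ ℓ, (m ℓ).length = ℓ) ∧
      ∀ ℓ, ℓ ≠ 0 → ∃ k, lbl k = m ℓ := by
  have hex : ∀ ℓ, ∃ k, ℓ = 0 ∨ (lbl k).length = ℓ := by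
    intro ℓ
    by_cases hℓ : ℓ = 0
    · exact ⟨0, Or.inl hℓ⟩
    · obtain ⟨k, hk⟩ := h ℓ hℓ
      exact ⟨k, Or.inr hk⟩
  have hK : Computable fun ℓ => Nat.find (hex ℓ) := by
    obtain ⟨d, hd, hd2⟩ : ∃ d : ℕ × ℕ → Bool, Computable d ∧
        ∀ p : ℕ × ℕ, (p.1 = 0 ∨ (lbl p.2).length = p.1) ↔ d p = true := by
      refine ⟨fun p => decide (p.1 = 0) || decide ((lbl p.2).length = p.1), ?_, ?_⟩
      · exact Primrec.or.to_comp.comp
          (Pool.Agent.Helper446.RE.cdecide (Pool.Agent.Helper446.RE.cp_eq Computable.fst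
            (Computable.const 0)))
          (Pool.Agent.Helper446.RE.cdecide (Pool.Agent.Helper446.RE.cp_eq
            (Computable.list_length.comp (hc.comp Computable.snd)) Computable.fst))
      · intro p
        simp
    have h2 : Partrec fun ℓ => Nat.rfind fun k => (Part.some (d (ℓ, k)) : Part Bool) :=
      Partrec.rfind (Computable₂.partrec₂ hd.to₂)
    refine h2.of_eq fun ℓ => ?_
    apply Part.eq_some_iff.2
    have e : ∀ k, (ℓ = 0 ∨ (lbl k).length = ℓ) ↔ d (ℓ, k) = true := fun k =>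
      hd2 (ℓ, k)
    rw [Nat.mem_rfind]
    refine ⟨?_, ?_⟩
    · rw [Part.mem_some_iff, eq_comm]
      exact (e _).1 (Nat.find_spec (hex ℓ))
    · intro m hm
      rw [Part.mem_some_iff, eq_comm]
      have := Nat.find_min (hex ℓ) hm
      rw [e] at this
      simpa using this
  refine ⟨fun ℓ => bif decide (ℓ = 0) then [] else lbl (Nat.find (hex ℓ)), ?_, ?_, ?_⟩
  · exact Computable.cond (Pool.Agent.Helper446.RE.cdecide (Pool.Agent.Helper446.RE.cp_eq
      Computable.id (Computable.const 0))) (Computable.const []) (hc.comp hK)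
  · intro ℓ
    by_cases hℓ : ℓ = 0
    · simp [hℓ]
    · have h1 := (Nat.find_spec (hex ℓ)).resolve_left hℓ
      have e : (bif decide (ℓ = 0) then [] else lbl (Nat.find (hex ℓ))) =
          lbl (Nat.find (hex ℓ)) := by rw [decide_eq_false hℓ]; rfl
      show (bif decide (ℓ = 0) then [] else lbl (Nat.find (hex ℓ))).length = ℓ
      rw [e]
      exact h1
  · intro ℓ hℓ
    have e : (bif decide (ℓ = 0) then [] else lbl (Nat.find (hex ℓ))) =
        lbl (Nat.find (hex ℓ)) := by rw [decide_eq_false hℓ]; rfl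
    show ∃ k, lbl k = (bif decide (ℓ = 0) then [] else lbl (Nat.find (hex ℓ)))
    rw [e]
    exact ⟨_, rfl⟩

theorem two (T : TorsorData) : ∃ A B : ℕ → ℕ → ℕ → Prop,
    (∀ i, {p : ℕ × ℕ | A i p.1 p.2}.Finite) ∧ IsComp A ∧ IsComp B ∧ (∃ f, IsIsoN A B f) ∧
    (¬ ∃ f, Computable f ∧ IsIsoN A B f) ∧
    ∀ C, IsComp C → (∃ f, IsIsoN A C f) →
      (∃ f, Computable f ∧ IsIsoN A C f) ∨ ∃ f, Computable f ∧ IsIsoN B C f := by
  have hU := isU_of T
  obtain ⟨lA, cA, iA, rA⟩ := exists_lbl T Z Z_len (by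
    have h : Computable fun n : ℕ => (List.range n).map fun _ => false :=
      J_col_comp.cc_map (g := fun _ _ => false) (crange' Computable.id) (Computable.const false)
    refine h.of_eq fun n => ?_
    unfold Z
    apply List.ext_getElem <;> simp)
  obtain ⟨lB, cB, iB, rB⟩ := exists_lbl T T.F T.lenF T.compF
  have nA : ∀ k, lA k ≠ [] := fun k => ((rA _).1 ⟨k, rfl⟩).1
  have zero : ∀ ℓ, Lim T.Est (Z ℓ) := hU.zero
  refine ⟨RS lA, RS lB, RS_finite lA iA, RS_comp lA cA, RS_comp lB cB, ?_, ?_, ?_⟩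
  · -- isomorphic
    obtain ⟨z, hz⟩ := Pool.Agent.Helper750.OC.J_exists_z.exists_z (Lim T.Est) hU T.F T.lenF T.cohF
    obtain ⟨f, _, hf⟩ := RS_iso lA lB iA iB z (fun x => by
      rw [rA, rB]
      refine shift_iff hU Z_len T.lenF z (fun ℓ => ?_) x
      rw [Z_sx' (T.lenF ℓ)]
      exact hz ℓ)
    exact ⟨f, hf⟩
  · rintro ⟨g, hg, hg2⟩
    apply T.noniso
    refine ⟨fun c => decide ((g (4 * c) / 2) % 2 = 1), ?_, ?_⟩
    · have h1 : Computable fun c : ℕ => 4 * c :=
        (Primrec.nat_mul.comp (Primrec.const 4) Primrec.id).to_comp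
      have h2 : Computable fun c : ℕ => g (4 * c) / 2 :=
        (Primrec.nat_div.to_comp).comp (hg.comp h1) (Computable.const 2)
      have h3 : Computable fun c : ℕ => g (4 * c) / 2 % 2 :=
        (Primrec.nat_mod.to_comp).comp h2 (Computable.const 2)
      exact Pool.Agent.Helper446.RE.cdecide (Pool.Agent.Helper446.RE.cp_eq h3
        (Computable.const 1))
    · intro ℓ
      by_cases hℓ : ℓ = 0
      · subst hℓ
        have := zero 0
        simpa [sx, pre, Z] using this
      · obtain ⟨k, hk⟩ := (rA (Z ℓ)).2 ⟨by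
          rw [ne_eq, ← List.length_eq_zero_iff, Z_len]; exact hℓ, by
          rw [sx_Z]; exact zero ℓ⟩
        obtain ⟨k', hk'⟩ := RS_shift lA lB nA g hg2 k
        rw [hk, Z_len, Z_sx' (pre_len _ _)] at hk'
        have := ((rB _).1 ⟨k', hk'⟩).2
        rwa [pre_len] at this
  · intro C hC hAC
    obtain ⟨g, hg⟩ := hAC
    obtain ⟨lC, cC, iC, nC, f, hf, hf2⟩ := normal lA iA nA C hC g hg
    obtain ⟨f', f1, f2⟩ := Function.bijective_iff_has_inverse.1 hf2.1
    obtain ⟨g', g1, g2⟩ := Function.bijective_iff_has_inverse.1 hg.1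
    have i1 : IsIsoN (RS lA) (RS lC) fun a => f' (g a) := isoN_trans hg (isoN_symm hf2 f1 f2)
    have i2 : IsIsoN (RS lC) (RS lA) fun a => g' (f a) := isoN_trans hf2 (isoN_symm hg g1 g2)
    have s1 := RS_shift lA lC nA _ i1
    have s2 := RS_shift lC lA nC _ i2
    set a0 : ℕ → Bool := fun c => decide ((f' (g (4 * c)) / 2) % 2 = 1) with ha0
    set a1 : ℕ → Bool := fun c => decide ((g' (f (4 * c)) / 2) % 2 = 1) with ha1
    have rA' : ∀ x, (∃ k, lA k = x) ↔ (x ≠ [] ∧ Lim T.Est x) := by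
      intro x
      rw [rA, sx_Z]
    -- the shift of the zero label
    have z1 : ∀ ℓ, ℓ ≠ 0 → ∃ k, lC k = pre a0 ℓ := by
      intro ℓ hℓ
      obtain ⟨k, hk⟩ := (rA' (Z ℓ)).2 ⟨by
        rw [ne_eq, ← List.length_eq_zero_iff, Z_len]; exact hℓ, zero ℓ⟩
      obtain ⟨k', hk'⟩ := s1 k
      rw [hk, Z_len, Z_sx' (pre_len _ _)] at hk'
      exact ⟨k', hk'⟩
    have z2 : ∀ ℓ, Lim T.Est (sx (pre a0 ℓ) (pre a1 ℓ)) := by
      intro ℓ
      by_cases hℓ : ℓ = 0
      · subst hℓ
        have := zero 0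
        simpa [sx, pre, Z] using this
      · obtain ⟨k, hk⟩ := z1 ℓ hℓ
        obtain ⟨k', hk'⟩ := s2 k
        rw [hk, pre_len] at hk'
        exact ((rA' _).1 ⟨k', hk'⟩).2
    have rC : ∀ y, (∃ k, lC k = y) ↔ (y ≠ [] ∧ Lim T.Est (sx y (pre a0 y.length))) := by
      intro y
      constructor
      · rintro ⟨k, rfl⟩
        refine ⟨nC k, ?_⟩
        obtain ⟨k', hk'⟩ := s2 k
        have u := ((rA' _).1 ⟨k', hk'⟩).2
        have p0 := pre_len a0 (lC k).length
        have p1 := pre_len a1 (lC k).length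
        refine U_of hU (slen rfl p1) (slen p0 p1) (slen rfl p0) u (z2 _) fun j => ?_
        rw [sget rfl p0, sget rfl p1, sget p0 p1]
        cases (lC k).getD j false <;> cases (pre a0 (lC k).length).getD j false <;>
          cases (pre a1 (lC k).length).getD j false <;> rfl
      · rintro ⟨hy, u⟩
        have p0 := pre_len a0 y.length
        have hl := slen (rfl : y.length = y.length) p0
        obtain ⟨k, hk⟩ := (rA' _).2 ⟨(nil_iff rfl hl).1 hy, u⟩
        obtain ⟨k', hk'⟩ := s1 k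
        rw [hk, hl, sx_cancel (by rw [p0])] at hk'
        exact ⟨k', hk'⟩
    obtain ⟨m, mc, ml, mr⟩ := first_len lC cC (fun ℓ hℓ => by
      obtain ⟨k, hk⟩ := z1 ℓ hℓ
      exact ⟨k, by rw [hk, pre_len]⟩)
    have mU : ∀ ℓ, Lim T.Est (sx (m ℓ) (pre a0 ℓ)) := by
      intro ℓ
      by_cases hℓ : ℓ = 0
      · subst hℓ
        have h0 : m 0 = [] := List.length_eq_zero_iff.1 (ml 0)
        have := zero 0
        rw [h0]
        simpa [sx, pre, Z] using this
      · have := ((rC _).1 (mr ℓ hℓ)).2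
        rwa [ml] at this
    obtain ⟨a, ha, h⟩ := T.dich m mc ml (by
      intro k ℓ hk
      have u1 := hU.restr _ k (mU ℓ)
      rw [sx_take, pre_take _ _ _ hk] at u1
      have hl : ((m ℓ).take k).length = k := by rw [List.length_take, ml]; omega
      refine U_of hU (slen hl (pre_len a0 k)) (slen (ml k) (pre_len a0 k)) (slen hl (ml k)) u1
        (mU k) fun j => ?_
      rw [sget hl (ml k), sget hl (pre_len a0 k), sget (ml k) (pre_len a0 k)]
      cases ((m ℓ).take k).getD j false <;> cases (m k).getD j false <;>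
        cases (pre a0 k).getD j false <;> rfl)
    rcases h with h | h
    · left
      obtain ⟨e, he, he2⟩ := RS_iso lA lC iA iC a (fun x => by
        rw [rA, rC]
        refine shift_iff hU Z_len (fun ℓ => pre_len a0 ℓ) a (fun ℓ => ?_) x
        have p0 := pre_len a0 ℓ
        have pa := pre_len a ℓ
        rw [Z_sx' p0]
        refine U_of hU (slen pa (ml ℓ)) (slen (ml ℓ) p0) (slen pa p0) (h ℓ) (mU ℓ) fun j => ?_
        rw [sget pa p0, sget pa (ml ℓ), sget (ml ℓ) p0]
        cases (pre a ℓ).getD j false <;> cases (m ℓ).getD j false <;>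
          cases (pre a0 ℓ).getD j false <;> rfl)
      exact ⟨_, hf.comp (he cA cC ha), isoN_trans he2 hf2⟩
    · right
      obtain ⟨e, he, he2⟩ := RS_iso lB lC iB iC a (fun x => by
        rw [rB, rC]
        refine shift_iff hU T.lenF (fun ℓ => pre_len a0 ℓ) a (fun ℓ => ?_) x
        have p0 := pre_len a0 ℓ
        have pa := pre_len a ℓ
        have pF := T.lenF ℓ
        refine U_of hU (slen pa (slen (ml ℓ) pF)) (slen (ml ℓ) p0) (slen pa (slen pF p0)) (h ℓ)
          (mU ℓ) fun j => ?_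
        rw [sget pa (slen pF p0), sget pF p0, sget pa (slen (ml ℓ) pF), sget (ml ℓ) pF,
          sget (ml ℓ) p0]
        cases (pre a ℓ).getD j false <;> cases (m ℓ).getD j false <;>
          cases (pre a0 ℓ).getD j false <;> cases (T.F ℓ).getD j false <;> rfl)
      exact ⟨_, hf.comp (he cB cC ha), isoN_trans he2 hf2⟩

end Pool.Agent.Helper750.UC
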